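import Pool.Agent.ANF.Glob.Anchor
import Pool.Agent.AND.Sched

/-!
# ANF / Glob / Num (helper60): matching of the globalised form bounds with the schedule `AND.tolAt`

`c` = corner of the cell, `s` = side, near region `dT x c ≤ 2 s` (as in `AND.ph`): `s0 = s`, `r = s + s/2`, `R = 2 s`.

`h4_tolAt`: the fields `h4l`, `h4u` of `Good f (tolAt P Sf n (F.add P n s {c}) π' v' M') M'` from those of
`Good f (tolAt P Sf n F π v M) M`, the data `StepIn` of the step and the numerical inequalities `NumH4`; `W` = sites with a weak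
outcome, which become inert (`W = ∅` for the uniform law).  `Ka` = anchor constant `KaC`, `Cm` = bound of the masses.
-/

open scoped BigOperators
open Finset Matrix

noncomputable section

namespace Pool.Agent.ANF.Glob

open Pool.Agent.Kin Pool.Agent.APS Pool.Agent.AND Pool.Agent.ANP Pool.Agent.ANM Pool.Agent.ANF.Heat

/-- one site: the change of `dl` absorbs a relative change `ρ` of `m` and an error `e m` -/
theorem site_num {m' mcl D dl' E e ρ : ℝ} (hmc : 0 < mcl) (hD0 : 0 ≤ D) (hD1 : D ≤ 1)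
    (hρ : 0 ≤ ρ) (he : 0 ≤ e) (h1 : 2 * ρ + 6 * e ≤ 1) (hm : m' ≤ (1 + ρ) * mcl)
    (hE : E ≤ e * mcl) (hdl : D + (2 * ρ + 6 * e) ≤ dl') :
    m' / (1 + dl') + E ≤ mcl / (1 + D) := by
  obtain ⟨t, ht⟩ : ∃ t, t = 2 * ρ + 6 * e := ⟨_, rfl⟩
  have ht0 : 0 ≤ t := by rw [ht]; positivity
  have a1 : m' / (1 + dl') ≤ (1 + ρ) * mcl / (1 + D + t) := by
    rw [div_le_div_iff₀ (by linarith) (by linarith)]
    have h2 : 1 + D + t ≤ 1 + dl' := by linarith
    have h3 : 0 ≤ (1 + ρ) * mcl := by positivity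
    calc m' * (1 + D + t) ≤ (1 + ρ) * mcl * (1 + D + t) :=
          mul_le_mul_of_nonneg_right hm (by linarith)
      _ ≤ (1 + ρ) * mcl * (1 + dl') := mul_le_mul_of_nonneg_left h2 h3
  have a2 : (1 + ρ) * mcl / (1 + D + t) + e * mcl ≤ mcl / (1 + D) := by
    have p1 : 0 < 1 + D := by linarith
    have p2 : 0 < 1 + D + t := by linarith
    have key : (1 + ρ) / (1 + D + t) + e ≤ 1 / (1 + D) := by
      rw [div_add' _ _ _ p2.ne', div_le_div_iff₀ p2 p1]
      have q1 : (1 + D) * (1 + D + t) ≤ 6 := by nlinarith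
      have q2 : e * ((1 + D) * (1 + D + t)) ≤ e * 6 := mul_le_mul_of_nonneg_left q1 he
      have q3 : ρ * (1 + D) ≤ ρ * 2 := mul_le_mul_of_nonneg_left (by linarith) hρ
      nlinarith
    have := mul_le_mul_of_nonneg_right key hmc.le
    calc (1 + ρ) * mcl / (1 + D + t) + e * mcl = ((1 + ρ) / (1 + D + t) + e) * mcl := by ring
      _ ≤ 1 / (1 + D) * mcl := this
      _ = mcl / (1 + D) := by ring
  linarith

/-- bound of the sum of the weights `rr` -/
def SR (d s : ℕ) (μ : ℝ) : ℝ := (4 * (s : ℝ) + 1) ^ d + sumC d 0 (μ / 2)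

/-- bound of the weights `tl` -/
def TL (d s : ℕ) (μ : ℝ) : ℝ :=
  (d : ℝ) / 2 * (2 * ((2 * s : ℕ) : ℝ) + 1) ^ 2 + (16 * d / (μ / 2) * sumC d 0 (μ / 2 / 4) +
    2 * d * (2 * ((2 * s : ℕ) : ℝ) + 1) * sumC d 0 (μ / 2))

/-- numerical inequalities -/
structure NumH4 (d s n : ℕ) (P : Par) (μ K ε Cm Ka C0m e1 e2 cρ ce cm : ℝ) : Prop where
  s2 : 2 ≤ s
  ka0 : 0 < P.kap n
  ka1 : P.kap n ≤ 1
  v0 : 0 ≤ P.v
  b0 : 0 ≤ P.b
  et0 : 0 ≤ P.eta
  bmu : P.b * P.kap n ≤ μ / 4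
  Cm0 : 0 ≤ C0m
  he1 : ε * (1 + ε) + K * Real.exp (-(μ * ((s / 2 : ℕ) : ℝ))) * (Cm * SR d s μ) *
    (Ka * (1 + ε) ^ 2) ≤ e1
  he2 : K * Real.exp (-(μ * ((s / 2 : ℕ) : ℝ))) *
    (Cm * (12 * (Cm * SR d s μ) + 4 * (2 * (s : ℝ) + 1) ^ d)) ≤ e2
  nD : 2 * e1 * (C0m * (2 + 144 * d ^ 2)) + 2 * e2 * TL d s μ ≤ P.D0 * P.CD * P.kap n ^ P.v
  nC : ε * (C0m * (2 + 144 * d ^ 2)) + e2 * TL d s μ ≤ P.C00 * P.CD * P.kap n ^ P.v
  nE : 4 * e1 + 2 * e2 ≤ ce * P.kap n ^ P.v
  cr0 : 0 ≤ cρ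
  Ce0 : 0 ≤ P.Ce
  cA : 3 * cρ + 6 * ce ≤ P.Ce * cm
  cS : 2 * cρ + 6 * ce ≤ P.dS
  c1 : 2 * cρ + 6 * ce ≤ 1

variable {d L : ℕ} [NeZero L]

omit [NeZero L] in
theorem ph_nonneg {κ v b : ℝ} (hκ : 0 < κ) (s : ℕ) (x c : Tor d L) : 0 ≤ ph κ v b s x c := by
  unfold ph
  split_ifs
  · positivity
  · exact (Real.exp_pos _).le

omit [NeZero L] in
theorem ph_le_one {κ v b : ℝ} (hκ : 0 < κ) (hκ1 : κ ≤ 1) (hv : 0 ≤ v) (hb : 0 ≤ b) (s : ℕ)
    (x c : Tor d L) : ph κ v b s x c ≤ 1 := by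
  unfold ph
  split_ifs
  · exact Real.rpow_le_one hκ.le hκ1 hv
  · rw [Real.exp_le_one_iff]
    have : (0 : ℝ) ≤ (dT x c : ℝ) := Nat.cast_nonneg _
    have := mul_nonneg (mul_nonneg hb hκ.le) this
    linarith

theorem Cc_two {s : ℕ} (hs : 2 ≤ s) (d : ℕ) : Cc d (s + s / 2) (2 * s) ≤ 2 + 144 * d ^ 2 := by
  unfold Cc
  have h1 : ((2 * s : ℕ) : ℝ) - ((s + s / 2 : ℕ) : ℝ) ≥ (s : ℝ) / 2 := by
    have : 2 * (s / 2) ≤ s := by omega
    have h2 : 2 * ((s / 2 : ℕ) : ℝ) ≤ s := by exact_mod_cast this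
    push_cast
    linarith
  have hs0 : (0 : ℝ) < s := by
    have : (2 : ℝ) ≤ s := by exact_mod_cast hs
    linarith
  have h3 : 0 < ((2 * s : ℕ) : ℝ) - ((s + s / 2 : ℕ) : ℝ) := by linarith
  have h4 : 9 * (d : ℝ) ^ 2 * ((2 * s : ℕ) : ℝ) ^ 2 / (((2 * s : ℕ) : ℝ) - ((s + s / 2 : ℕ) : ℝ)) ^ 2
      ≤ 144 * d ^ 2 := by
    rw [div_le_iff₀ (by positivity)]
    have h5 : ((s : ℝ) / 2) ^ 2 ≤ (((2 * s : ℕ) : ℝ) - ((s + s / 2 : ℕ) : ℝ)) ^ 2 :=
      pow_le_pow_left₀ (by positivity) h1 2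
    have h6 : 144 * (d : ℝ) ^ 2 * ((s : ℝ) / 2) ^ 2 ≤
        144 * (d : ℝ) ^ 2 * (((2 * s : ℕ) : ℝ) - ((s + s / 2 : ℕ) : ℝ)) ^ 2 :=
      mul_le_mul_of_nonneg_left h5 (by positivity)
    refine le_trans (le_of_eq ?_) h6
    push_cast
    ring
  linarith

theorem TL_nonneg (d s : ℕ) {μ : ℝ} (h : 0 < μ) : 0 ≤ TL d s μ := by
  unfold TL
  have h1 := sumC_nonneg d 0 (half_pos h)
  have h2 := sumC_nonneg d 0 (mu := μ / 2 / 4) (by positivity)
  positivity

theorem tl_near {μ : ℝ} (h : 0 < μ) (s : ℕ) (c x : Tor d L) : tl μ (2 * s) c x ≤ TL d s μ := by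
  unfold tl TL tlw
  have h1 := sumC_nonneg d 0 (half_pos h)
  have h2 := sumC_nonneg d 0 (mu := μ / 2 / 4) (by positivity)
  have h3 : Real.exp (-(μ / 2 / 2 * (dT x c : ℝ))) ≤ 1 := by
    rw [Real.exp_le_one_iff]
    have : (0 : ℝ) ≤ (dT x c : ℝ) := Nat.cast_nonneg _
    have := mul_nonneg (by positivity : (0 : ℝ) ≤ μ / 2 / 2) this
    linarith
  refine add_le_add ?_ (add_le_add ?_ ?_)
  · split_ifs
    · exact le_rfl
    · positivity
  · have h4 : 0 ≤ 16 * (d : ℝ) / (μ / 2) * sumC d 0 (μ / 2 / 4) := by positivity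
    calc 16 * (d : ℝ) / (μ / 2) * sumC d 0 (μ / 2 / 4) * Real.exp (-(μ / 2 / 2 * (dT x c : ℝ)))
        ≤ 16 * (d : ℝ) / (μ / 2) * sumC d 0 (μ / 2 / 4) * 1 := mul_le_mul_of_nonneg_left h3 h4
      _ = _ := mul_one _
  · split_ifs
    · exact le_rfl
    · positivity

theorem tl_far {μ : ℝ} (h : 0 < μ) (s : ℕ) (c x : Tor d L) (hx : ¬ dT x c ≤ 2 * s) :
    tl μ (2 * s) c x ≤ TL d s μ * Real.exp (-(μ / 4 * dT x c)) := by
  unfold tl TL tlw
  have h1 := sumC_nonneg d 0 (half_pos h)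
  have h2 := sumC_nonneg d 0 (mu := μ / 2 / 4) (by positivity)
  rw [if_neg hx, if_neg hx, zero_add, add_zero]
  have h3 : -(μ / 2 / 2 * (dT x c : ℝ)) = -(μ / 4 * dT x c) := by ring
  rw [h3]
  refine mul_le_mul_of_nonneg_right ?_ (Real.exp_pos _).le
  have h4 : 0 ≤ (d : ℝ) / 2 * (2 * ((2 * s : ℕ) : ℝ) + 1) ^ 2 := by positivity
  have h5 : 0 ≤ 2 * (d : ℝ) * (2 * ((2 * s : ℕ) : ℝ) + 1) * sumC d 0 (μ / 2) := by positivity
  linarith

variable {M M' : Med (Tor d L)} {N : Finset (Tor d L)} {mcl : Tor d L → ℝ} {c : Tor d L}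
  {s n : ℕ} {μ K ε Cm Ka C0m e1 e2 cρ ce cm : ℝ} {P : Par}

omit [NeZero L] in
theorem exp_far {κ b : ℝ} (h : b * κ ≤ μ / 4) (x c : Tor d L) :
    Real.exp (-(μ / 4 * dT x c)) ≤ Real.exp (-(b * κ * dT x c)) := by
  rw [Real.exp_le_exp, neg_le_neg_iff]
  exact mul_le_mul_of_nonneg_right h (Nat.cast_nonneg _)

section num

variable (hS : StepIn M M' N mcl c s (s + s / 2) (2 * s) μ K ε Cm Ka)
  (hN : NumH4 d s n P μ K ε Cm Ka C0m e1 e2 cρ ce cm)

include hS hN

omit hN in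
theorem sumrr : ∑ x ∈ M.nr, rr μ s c x ≤ SR d s μ :=
  (sum_le_sum_of_subset_of_nonneg (subset_univ _) fun x _ _ => (rr_pos μ s c x).le).trans
    (sum_rr_le c hS.mu0 hS.mu1)

theorem sr0 : 0 ≤ SR d s μ :=
  le_trans (sum_nonneg fun x _ => (rr_pos μ s c x).le) (sumrr hS)

theorem e10 : 0 ≤ e1 := by
  refine le_trans ?_ hN.he1
  have h1 := hS.K0
  have h2 := hS.ep0
  have h3 := hS.Ka0
  have h4 := sr0 hS hN
  have h6 := hS.Cm1
  have h5 := (Real.exp_pos (-(μ * ((s / 2 : ℕ) : ℝ)))).le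
  positivity

theorem e20 : 0 ≤ e2 := by
  refine le_trans ?_ hN.he2
  have h1 := hS.K0
  have h4 := sr0 hS hN
  have h6 := hS.Cm1
  have h5 := (Real.exp_pos (-(μ * ((s / 2 : ℕ) : ℝ)))).le
  positivity

theorem ce0 : 0 ≤ ce := by
  have h1 := e10 hS hN
  have h2 := e20 hS hN
  have h5 : 0 < P.kap n ^ P.v := Real.rpow_pos_of_pos hN.ka0 _
  by_contra hc
  have := mul_neg_of_neg_of_pos (not_le.1 hc) h5
  linarith [hN.nE]

omit hS in
theorem kv1 : P.kap n ^ P.v ≤ 1 := Real.rpow_le_one hN.ka0.le hN.ka1 hN.v0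

/-- edges, (H4low) -/
theorem edgeD (x : Tor d L) : (if dT x c ≤ 2 * s then 2 * e1 * (C0m * Cc d (s + s / 2) (2 * s)) else 0) +
    2 * e2 * tl μ (2 * s) c x ≤ P.D0 * P.CD * ph (P.kap n) P.v P.b s x c := by
  have h1 := e10 hS hN
  have h2 := e20 hS hN
  have h3 := hN.nD
  have h4 := TL_nonneg d s hS.mu0
  have h6 : 2 * e1 * (C0m * Cc d (s + s / 2) (2 * s)) ≤ 2 * e1 * (C0m * (2 + 144 * d ^ 2)) :=
    mul_le_mul_of_nonneg_left (mul_le_mul_of_nonneg_left (Cc_two hN.s2 d) hN.Cm0) (by positivity)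
  unfold ph
  split_ifs with hx
  · have h5 := mul_le_mul_of_nonneg_left (tl_near hS.mu0 s c x) (by positivity : 0 ≤ 2 * e2)
    linarith
  · rw [zero_add]
    have h5 := mul_le_mul_of_nonneg_left (tl_far hS.mu0 s c x hx) (by positivity : 0 ≤ 2 * e2)
    have h7 := exp_far hN.bmu x c
    have hCm := hN.Cm0
    have hDC : 0 ≤ P.D0 * P.CD := by
      have hv := Real.rpow_pos_of_pos hN.ka0 P.v
      by_contra hc
      have := mul_neg_of_neg_of_pos (not_le.1 hc) hv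
      have h8 : 0 ≤ 2 * e1 * (C0m * (2 + 144 * (d : ℝ) ^ 2)) + 2 * e2 * TL d s μ := by positivity
      linarith
    have h9 : 2 * e2 * TL d s μ ≤ P.D0 * P.CD := by
      have h8 : 0 ≤ 2 * e1 * (C0m * (2 + 144 * (d : ℝ) ^ 2)) := by positivity
      have h10 := mul_le_mul_of_nonneg_left (kv1 hN) hDC
      linarith
    calc 2 * e2 * tl μ (2 * s) c x ≤ 2 * e2 * (TL d s μ * Real.exp (-(μ / 4 * dT x c))) := h5
      _ = 2 * e2 * TL d s μ * Real.exp (-(μ / 4 * dT x c)) := by ring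
      _ ≤ 2 * e2 * TL d s μ * Real.exp (-(P.b * P.kap n * dT x c)) :=
          mul_le_mul_of_nonneg_left h7 (by positivity)
      _ ≤ P.D0 * P.CD * Real.exp (-(P.b * P.kap n * dT x c)) :=
          mul_le_mul_of_nonneg_right h9 (Real.exp_pos _).le

/-- edges, (H4up) -/
theorem edgeC (x : Tor d L) : (if dT x c ≤ 2 * s then ε * (C0m * Cc d (s + s / 2) (2 * s)) else 0) +
    e2 * tl μ (2 * s) c x ≤ P.C00 * P.CD * ph (P.kap n) P.v P.b s x c := by
  have h1 := hS.ep0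
  have h2 := e20 hS hN
  have h3 := hN.nC
  have h4 := TL_nonneg d s hS.mu0
  have h6 : ε * (C0m * Cc d (s + s / 2) (2 * s)) ≤ ε * (C0m * (2 + 144 * d ^ 2)) :=
    mul_le_mul_of_nonneg_left (mul_le_mul_of_nonneg_left (Cc_two hN.s2 d) hN.Cm0) (by positivity)
  unfold ph
  split_ifs with hx
  · have h5 := mul_le_mul_of_nonneg_left (tl_near hS.mu0 s c x) h2
    linarith
  · rw [zero_add]
    have h5 := mul_le_mul_of_nonneg_left (tl_far hS.mu0 s c x hx) h2
    have h7 := exp_far hN.bmu x c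
    have hCm := hN.Cm0
    have hDC : 0 ≤ P.C00 * P.CD := by
      have hv := Real.rpow_pos_of_pos hN.ka0 P.v
      by_contra hc
      have := mul_neg_of_neg_of_pos (not_le.1 hc) hv
      have h8 : 0 ≤ ε * (C0m * (2 + 144 * (d : ℝ) ^ 2)) + e2 * TL d s μ := by positivity
      linarith
    have h9 : e2 * TL d s μ ≤ P.C00 * P.CD := by
      have h8 : 0 ≤ ε * (C0m * (2 + 144 * (d : ℝ) ^ 2)) := by positivity
      have h10 := mul_le_mul_of_nonneg_left (kv1 hN) hDC
      linarith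
    calc e2 * tl μ (2 * s) c x ≤ e2 * (TL d s μ * Real.exp (-(μ / 4 * dT x c))) := h5
      _ = e2 * TL d s μ * Real.exp (-(μ / 4 * dT x c)) := by ring
      _ ≤ e2 * TL d s μ * Real.exp (-(P.b * P.kap n * dT x c)) :=
          mul_le_mul_of_nonneg_left h7 (by positivity)
      _ ≤ P.C00 * P.CD * Real.exp (-(P.b * P.kap n * dT x c)) :=
          mul_le_mul_of_nonneg_right h9 (Real.exp_pos _).le

/-- sites: the error is at most `ce ph mcl` -/
theorem siteE {x : Tor d L} (hx : x ∈ M.nr) :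
    (if dT x c ≤ 2 * s then 4 * e1 * mcl x else 0) + 2 * e2 * (mcl x * rr μ s c x) ≤
      ce * ph (P.kap n) P.v P.b s x c * mcl x := by
  have h1 := e10 hS hN
  have h2 := e20 hS hN
  have hmc : 0 < mcl x := hS.mc0 hx
  have hr0 := (rr_pos μ s c x).le
  unfold ph
  split_ifs with hxn
  · have q := rr_le_one hS.mu0.le s c x
    have h5 : 2 * e2 * (mcl x * rr μ s c x) ≤ 2 * e2 * (mcl x * 1) :=
      mul_le_mul_of_nonneg_left (mul_le_mul_of_nonneg_left q hmc.le) (by positivity)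
    have h6 := mul_le_mul_of_nonneg_right hN.nE hmc.le
    linarith
  · rw [zero_add]
    have h5 : rr μ s c x ≤ Real.exp (-(P.b * P.kap n * dT x c)) := by
      refine (rr_half hS.mu0.le (by omega)).trans ?_
      rw [Real.exp_le_exp, neg_le_neg_iff]
      refine mul_le_mul_of_nonneg_right ?_ (Nat.cast_nonneg _)
      have := hN.bmu
      have := hS.mu0
      linarith
    have h6 : 2 * e2 ≤ ce := by
      have q1 := hN.nE
      have q2 := mul_le_mul_of_nonneg_left (kv1 hN) (ce0 hS hN)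
      linarith
    have h7 := mul_le_mul h6 h5 hr0 (ce0 hS hN)
    have h8 := mul_le_mul_of_nonneg_right h7 hmc.le
    linarith

end num

/-- **(H4low), (H4up) of the next medium for the schedule.**  `W` = sites with a weak outcome, which become inert (`W = ∅` for the uniform
law). -/
theorem h4_tolAt {X : Type} {Sf : SiteF X} {F : Fld (Tor d L)} {π π' : Prof (Tor d L)}
    {v v' : Tor d L → X}
    (hS : StepIn M M' N mcl c s (s + s / 2) (2 * s) μ K ε Cm Ka)
    (hN : NumH4 d s n P μ K ε Cm Ka C0m e1 e2 cρ ce cm) {W : Finset (Tor d L)}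
    (hA : M'.A = M.A \ W)
    (hl : ∀ u : Tor d L → ℝ, ∃ a : Tor d L → ℝ,
      DW (tolAt P Sf n F π v M).D a +
        ∑ x ∈ M.nr, M.eta x * (rsc (H0T d L) M.b x x).im * (u x - a x) ^ 2 /
        (1 + (tolAt P Sf n F π v M).dl x) ≤ QF (H0T d L) M u)
    (hu : ∀ a : Tor d L → ℝ, QF (H0T d L) M a ≤ DW (tolAt P Sf n F π v M).C0 a)
    (hC : ∀ i x, (tolAt P Sf n F π v M).C0 i x ≤ C0m)
    (hdl0 : ∀ x, 0 ≤ (tolAt P Sf n F π v M).dl x)
    (hdl1 : ∀ x ∈ M.nr, (tolAt P Sf n F π v M).dl x ≤ 1)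
    (hρ : ∀ x ∈ M.nr, |mm M' x - mcl x| ≤ cρ * ph (P.kap n) P.v P.b s x c * mcl x)
    (hcm : ∀ x ∈ M.A, x ∉ W → x ∈ M.nr → cm * (P.eta + P.kap n) ≤ mm M' x)
    (hWd : ∀ x ∈ W, (P.e0 + P.Ce * F.ae x) * mcl x + (2 * cρ + 6 * ce) ≤
      P.dS * (1 + F.err x)) :
    (∀ u : Tor d L → ℝ, ∃ a : Tor d L → ℝ,
      DW (tolAt P Sf n (F.add P n s {c}) π' v' M').D a +
        ∑ x ∈ M'.nr, M'.eta x * (rsc (H0T d L) M'.b x x).im * (u x - a x) ^ 2 /
        (1 + (tolAt P Sf n (F.add P n s {c}) π' v' M').dl x) ≤ QF (H0T d L) M' u) ∧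
    ∀ a : Tor d L → ℝ,
      QF (H0T d L) M' a ≤ DW (tolAt P Sf n (F.add P n s {c}) π' v' M').C0 a := by
  have hK := hS.K0
  have hCm := hS.Cm1
  have hexp := (Real.exp_pos (-(μ * ((s / 2 : ℕ) : ℝ)))).le
  have hsr := sumrr hS
  have hsr0 := sr0 hS hN
  have hsub : s + s / 2 - s = s / 2 := by omega
  have hcard : (#N : ℝ) ≤ (2 * (s : ℝ) + 1) ^ d := by
    have h1 : N ⊆ univ.filter fun y : Tor d L => dT c y ≤ s := by
      intro w hw
      rw [mem_filter]
      refine ⟨mem_univ _, ?_⟩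
      rw [(nmet_dT (d := d) (L := L)).symm]
      exact hS.NB w hw
    have h2 := (card_le_card h1).trans (ANP.card_ball c s)
    calc (#N : ℝ) ≤ (((2 * s + 1) ^ d : ℕ) : ℝ) := by exact_mod_cast h2
      _ = _ := by push_cast; ring
  have g1 : ε * (1 + ε) + K * Real.exp (-(μ * ((s + s / 2 - s : ℕ) : ℝ))) *
      (Cm * SR d s μ) * (Ka * (1 + ε) ^ 2) ≤ e1 := by
    rw [hsub]
    exact hN.he1
  have hKE : 0 ≤ K * Real.exp (-(μ * ((s / 2 : ℕ) : ℝ))) := mul_nonneg hK hexp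
  have hCS : 0 ≤ Cm * SR d s μ := mul_nonneg (by linarith) hsr0
  have g3 : K * Real.exp (-(μ * ((s + s / 2 - s : ℕ) : ℝ))) *
      (Cm * (2 * (Cm * SR d s μ) + 2 * #N) + Cm * SR d s μ) ≤ e2 := by
    rw [hsub]
    refine le_trans ?_ hN.he2
    refine mul_le_mul_of_nonneg_left ?_ hKE
    have h1 : Cm * SR d s μ ≤ Cm * (Cm * SR d s μ) := by nlinarith
    have h2 : Cm * (#N : ℝ) ≤ Cm * (2 * (s : ℝ) + 1) ^ d :=
      mul_le_mul_of_nonneg_left hcard (by linarith)
    have h3 : 0 ≤ Cm * (2 * (s : ℝ) + 1) ^ d := by positivity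
    have h4 : 0 ≤ Cm * (Cm * SR d s μ) := by positivity
    linarith
  have g2 : K * Real.exp (-(μ * ((s + s / 2 - s : ℕ) : ℝ))) *
      (Cm * (2 * (Cm * SR d s μ) + 2 * #N)) ≤ e2 := by
    refine le_trans ?_ g3
    rw [hsub]
    refine mul_le_mul_of_nonneg_left ?_ hKE
    linarith
  constructor
  · refine hS.h4l hsr g1 g2 hl hu hC hN.Cm0 hdl0 (fun i x => ?_) (fun x hx => ?_)
    · have h1 := edgeD hS hN x
      show P.D0 * (1 - P.CD * (F.add P n s {c}).err x) + _ ≤ P.D0 * (1 - P.CD * F.err x)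
      have h2 : (F.add P n s {c}).err x = F.err x + ph (P.kap n) P.v P.b s x c := by
        simp [Fld.add]
      rw [h2]
      linarith
    · have h1 := siteE hS hN hx
      obtain ⟨p, hp⟩ : ∃ p, p = ph (P.kap n) P.v P.b s x c := ⟨_, rfl⟩
      have hp0 : 0 ≤ p := by rw [hp]; exact ph_nonneg hN.ka0 s x c
      have hp1 : p ≤ 1 := by rw [hp]; exact ph_le_one hN.ka0 hN.ka1 hN.v0 hN.b0 s x c
      have hρx := abs_le.1 (hρ x hx)
      rw [← hp] at h1 hρx
      have hmc : 0 < mcl x := hS.mc0 hx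
      have hm0 := hS.m0 x hx
      have hle : mcl x ≤ mm M x := by
        by_cases hxN : x ∈ N
        · exact (hS.cN x hxN).le
        · exact (hS.cX x hx hxN).le
      have hth : mcl x / mm M x ≤ 1 := by rw [div_le_one hm0]; exact hle
      have hth0 : 0 ≤ mcl x / mm M x := by positivity
      have hce := ce0 hS hN
      have hcr := hN.cr0
      have hc1 := hN.c1
      have hD1 : mcl x / mm M x * (tolAt P Sf n F π v M).dl x ≤ 1 := by
        have := mul_le_mul hth (hdl1 x hx) (hdl0 x) zero_le_one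
        linarith
      have hs1 : 2 * (cρ * p) + 6 * (ce * p) ≤ 1 := by
        have q : 2 * (cρ * p) + 6 * (ce * p) = (2 * cρ + 6 * ce) * p := by ring
        rw [q]
        have : 0 ≤ 2 * cρ + 6 * ce := by positivity
        nlinarith
      refine site_num hmc (mul_nonneg hth0 (hdl0 x)) hD1 (mul_nonneg hcr hp0)
        (mul_nonneg hce hp0) hs1 (by linarith [hρx.2]) h1 ?_
      -- the new `dl`
      by_cases hxA : x ∈ M.A
      · have e1' : (tolAt P Sf n F π v M).dl x = (P.e0 + P.Ce * F.ae x) * mm M x := by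
          show (if x ∈ M.A then _ else _) = _
          rw [if_pos hxA]
          rfl
        have hE0 : 0 ≤ P.e0 + P.Ce * F.ae x := by
          have := hdl0 x
          rw [e1'] at this
          exact nonneg_of_mul_nonneg_left this hm0
        have e3 : mcl x / mm M x * ((P.e0 + P.Ce * F.ae x) * mm M x) =
            (P.e0 + P.Ce * F.ae x) * mcl x := by
          field_simp
        by_cases hxW : x ∈ W
        · have e2' : (tolAt P Sf n (F.add P n s {c}) π' v' M').dl x =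
              P.dS * (1 + (F.err x + p)) := by
            show (if x ∈ M'.A then _ else _) = _
            rw [hA, if_neg (by simp [hxW])]
            have : (F.add P n s {c}).err x = F.err x + p := by
              simp [Fld.add, hp]
            rw [this]
          rw [e1', e2', e3]
          have e4 := hWd x hxW
          have e5 : 0 ≤ P.dS * p := by
            refine mul_nonneg ?_ hp0
            have := hN.cS
            have : 0 ≤ 2 * cρ + 6 * ce := by positivity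
            linarith
          have e6 : 2 * (cρ * p) + 6 * (ce * p) ≤ 2 * cρ + 6 * ce := by
            have : 0 ≤ 2 * cρ + 6 * ce := by positivity
            nlinarith
          linarith
        have e2' : (tolAt P Sf n (F.add P n s {c}) π' v' M').dl x =
            (P.e0 + P.Ce * (F.ae x + (P.eta + P.kap n)⁻¹ * p)) * mm M' x := by
          show (if x ∈ M'.A then _ else _) = _
          rw [hA, if_pos (mem_sdiff.2 ⟨hxA, hxW⟩)]
          have : (F.add P n s {c}).ae x = F.ae x + (P.eta + P.kap n)⁻¹ * p := by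
            simp [Fld.add, hp]
          rw [this]
          rfl
        rw [e1', e2']
        rw [e1'] at hD1
        rw [e3] at hD1 ⊢
        have e4 : (P.e0 + P.Ce * (F.ae x + (P.eta + P.kap n)⁻¹ * p)) * mm M' x =
            (P.e0 + P.Ce * F.ae x) * mm M' x + P.Ce * p * ((P.eta + P.kap n)⁻¹ * mm M' x) := by
          ring
        rw [e4]
        have hka : 0 < P.eta + P.kap n := add_pos_of_nonneg_of_pos hN.et0 hN.ka0
        have e5 : cm ≤ (P.eta + P.kap n)⁻¹ * mm M' x := by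
          have := hcm x hxA hxW hx
          rw [inv_mul_eq_div, le_div_iff₀ hka]
          exact this
        have e6 : P.Ce * p * cm ≤ P.Ce * p * ((P.eta + P.kap n)⁻¹ * mm M' x) :=
          mul_le_mul_of_nonneg_left e5 (mul_nonneg hN.Ce0 hp0)
        have e7 : (P.e0 + P.Ce * F.ae x) * (mcl x - cρ * p * mcl x) ≤
            (P.e0 + P.Ce * F.ae x) * mm M' x :=
          mul_le_mul_of_nonneg_left (by linarith [hρx.1]) hE0
        have e8 : (P.e0 + P.Ce * F.ae x) * mcl x * (cρ * p) ≤ 1 * (cρ * p) :=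
          mul_le_mul_of_nonneg_right hD1 (mul_nonneg hcr hp0)
        have e9 := mul_le_mul_of_nonneg_right hN.cA hp0
        have e7' : (P.e0 + P.Ce * F.ae x) * mcl x -
            (P.e0 + P.Ce * F.ae x) * mcl x * (cρ * p) ≤
            (P.e0 + P.Ce * F.ae x) * mm M' x := by
          refine le_trans (le_of_eq ?_) e7
          ring
        have e9' : 3 * (cρ * p) + 6 * (ce * p) ≤ P.Ce * p * cm := by
          refine le_trans (le_of_eq ?_) (e9.trans (le_of_eq ?_)) <;> ring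
        rw [one_mul] at e8
        linarith
      · have e1' : (tolAt P Sf n F π v M).dl x = P.dS * (1 + F.err x) := by
          show (if x ∈ M.A then _ else _) = _
          rw [if_neg hxA]
        have e2' : (tolAt P Sf n (F.add P n s {c}) π' v' M').dl x =
            P.dS * (1 + (F.err x + p)) := by
          show (if x ∈ M'.A then _ else _) = _
          rw [hA, if_neg (fun h => hxA (mem_sdiff.1 h).1)]
          have : (F.add P n s {c}).err x = F.err x + p := by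
            simp [Fld.add, hp]
          rw [this]
        have e3 := mul_le_mul_of_nonneg_right hth (hdl0 x)
        rw [e1'] at e3 ⊢
        rw [e2']
        have e4 := mul_le_mul_of_nonneg_right hN.cS hp0
        nlinarith
  · refine hS.h4u hsr g3 hu hC hN.Cm0 (fun i x => ?_)
    have h1 := edgeC hS hN x
    show P.C00 * (1 + P.CD * F.err x) + _ ≤ P.C00 * (1 + P.CD * (F.add P n s {c}).err x)
    have h2 : (F.add P n s {c}).err x = F.err x + ph (P.kap n) P.v P.b s x c := by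
      simp [Fld.add]
    rw [h2]
    linarith

end Pool.Agent.ANF.Glob
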