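import Pool.Agent.ANF.Glob.Core

/-!
# ANF / Glob / Comp (helper60): local to global, the smoothing steps, lattice free part

* `exists_min`  : the infimal convolution `inf_y JF k (u - y) + ∑_N y²/σ` is attained;
* `Cell.glow`   : lower bound for every function;
* `Cell.gup`    : upper bound for every function;
* `par`         : one site parallel sum;
* `Cell.h4l`    : (H4low) after the step, `Cell.h4u` : (H4up) after the step (abstract Dirichlet forms).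
-/

open Finset

noncomputable section

namespace Pool.Agent.ANF.Glob

variable {T : Type*} [Fintype T] [DecidableEq T]
variable {X N X1 : Finset T} {k k' : T → T → ℝ} {σ χ ρ : T → ℝ} {Kd ε Ka : ℝ}

omit [DecidableEq T] in
/-- the infimal convolution is attained -/
theorem exists_min (hk : ∀ x ∈ X, ∀ y ∈ X, 0 ≤ k x y) (hs0 : ∀ w ∈ N, 0 < σ w) (u : T → ℝ) :
    ∃ y0 : T → ℝ, (∀ x, x ∉ N → y0 x = 0) ∧ ∀ y : T → ℝ, (∀ x, x ∉ N → y x = 0) →
      JF X k (fun x => u x - y0 x) + ∑ w ∈ N, y0 w ^ 2 / σ w ≤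
        JF X k (fun x => u x - y x) + ∑ w ∈ N, y w ^ 2 / σ w := by
  classical
  obtain ⟨Φ, hΦ⟩ : ∃ Φ : (T → ℝ) → ℝ, Φ = fun y =>
      JF X k (fun x => u x - y x) + ∑ w ∈ N, y w ^ 2 / σ w := ⟨_, rfl⟩
  have hcont : Continuous Φ := by
    rw [hΦ]
    unfold JF
    fun_prop
  obtain ⟨S, hS⟩ : ∃ S : Set (T → ℝ), S = {y | (∀ x, x ∉ N → y x = 0) ∧
      ∑ w ∈ N, y w ^ 2 / σ w ≤ JF X k u} := ⟨_, rfl⟩
  have hclosed : IsClosed S := by
    have : S = (⋂ x ∈ {x : T | x ∉ N}, {y : T → ℝ | y x = 0}) ∩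
        {y : T → ℝ | ∑ w ∈ N, y w ^ 2 / σ w ≤ JF X k u} := by
      rw [hS]
      ext y
      simp
    rw [this]
    refine IsClosed.inter ?_ ?_
    · refine isClosed_biInter fun x _ => ?_
      exact isClosed_eq (continuous_apply x) continuous_const
    · refine isClosed_le ?_ continuous_const
      fun_prop
  have hbdd : Bornology.IsBounded S := by
    have hF := JF_nonneg (X := X) hk u
    obtain ⟨B, hB⟩ : ∃ B : ℝ, B = 1 + ∑ w ∈ N, σ w * JF X k u := ⟨_, rfl⟩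
    refine (Metric.isBounded_Icc (fun _ : T => -B) (fun _ : T => B)).subset ?_
    intro y hy
    rw [hS] at hy
    obtain ⟨hy1, hy2⟩ := hy
    have hBx : ∀ x, |y x| ≤ B := by
      intro x
      by_cases hx : x ∈ N
      · have h1 : y x ^ 2 / σ x ≤ JF X k u :=
          (single_le_sum (f := fun w => y w ^ 2 / σ w)
            (fun w hw => div_nonneg (sq_nonneg _) (hs0 w hw).le) hx).trans hy2
        have h2 : y x ^ 2 ≤ σ x * JF X k u := by
          rw [div_le_iff₀ (hs0 x hx)] at h1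
          linarith
        have h3 : σ x * JF X k u ≤ ∑ w ∈ N, σ w * JF X k u :=
          single_le_sum (f := fun w => σ w * JF X k u)
            (fun w hw => mul_nonneg (hs0 w hw).le hF) hx
        have h4 : |y x| ≤ 1 + y x ^ 2 := by
          rw [← sq_abs]
          nlinarith [sq_nonneg (|y x| - 1), abs_nonneg (y x)]
        rw [hB]
        linarith
      · rw [hy1 x hx, abs_zero, hB]
        have : 0 ≤ ∑ w ∈ N, σ w * JF X k u :=
          sum_nonneg fun w hw => mul_nonneg (hs0 w hw).le hF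
        linarith
    constructor
    · intro x
      exact (abs_le.1 (hBx x)).1
    · intro x
      exact (abs_le.1 (hBx x)).2
  have hcpt : IsCompact S := Metric.isCompact_of_isClosed_isBounded hclosed hbdd
  have h0 : (0 : T → ℝ) ∈ S := by
    rw [hS]
    refine ⟨fun x _ => rfl, ?_⟩
    simp only [Pi.zero_apply]
    have hF := JF_nonneg (X := X) hk u
    simpa using hF
  obtain ⟨y0, hy0, hmin⟩ := hcpt.exists_isMinOn ⟨0, h0⟩ hcont.continuousOn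
  have hy0' := hy0
  rw [hS] at hy0'
  refine ⟨y0, hy0'.1, fun y hy => ?_⟩
  have hgoal : Φ y0 ≤ Φ y := by
    by_cases hyS : ∑ w ∈ N, y w ^ 2 / σ w ≤ JF X k u
    · have : y ∈ S := by
        rw [hS]
        exact ⟨hy, hyS⟩
      exact hmin this
    · have h1 : Φ y0 ≤ Φ 0 := hmin h0
      have h2 : Φ 0 = JF X k u := by
        rw [hΦ]
        simp
      have h3 : JF X k u ≤ Φ y := by
        rw [hΦ]
        have := JF_nonneg (X := X) hk (fun x => u x - y x)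
        simp only
        linarith [not_le.1 hyS]
      linarith
  rw [hΦ] at hgoal
  exact hgoal

omit [Fintype T] in
/-- **upper bound for every function** -/
theorem Cell.gup (h : Cell X N X1 k k' σ χ ρ Kd ε Ka) (u : T → ℝ) (c : ℝ) :
    JF X k' u ≤ JF X k u + ε * JF X k (fun x => χ x * (u x - c)) +
      (Kd * (2 * (∑ x ∈ X, ρ x) + 2 * #N) * (∑ x ∈ X, ρ x * (u x - c) ^ 2) +
        Kd * (∑ x ∈ X, ρ x) * ∑ w ∈ N, (u w - c) ^ 2) := by
  have h1 := h.defect (fun x => u x - c) (fun _ => 0) (fun _ _ => rfl)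
  simp only [sub_zero] at h1
  rw [JF_add_const, JF_add_const] at h1
  have h2 := h.up (fun x => χ x * (u x - c)) (fun x _ hx => by rw [hx, zero_mul]) (fun _ => 0)
    (fun _ _ => rfl)
  simp only [sub_zero, ne_eq, OfNat.ofNat_ne_zero, not_false_eq_true, zero_pow, zero_div,
    sum_const_zero, add_zero] at h2
  have h3 := (abs_le.1 h1).1
  have h4 : ∑ w ∈ N, (χ w * (u w - c)) ^ 2 = ∑ w ∈ N, (u w - c) ^ 2 :=
    sum_congr rfl fun w hw => by rw [h.cX w (h.NX1 hw), one_mul]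
  rw [h4] at h3
  linarith

/-- **lower bound for every function**; `y'` is arbitrary (the error is relative to the infimal convolution) -/
theorem Cell.glow (h : Cell X N X1 k k' σ χ ρ Kd ε Ka) (u : T → ℝ) :
    ∃ y0 : T → ℝ, (∀ x, x ∉ N → y0 x = 0) ∧ ∀ (c : ℝ) (y' : T → ℝ), (∀ x, x ∉ N → y' x = 0) →
      JF X k (fun x => u x - y0 x) + ∑ w ∈ N, y0 w ^ 2 / σ w ≤
        JF X k' u +
          (ε * (1 + ε) + Kd * (∑ x ∈ X, ρ x) * (Ka * (1 + ε) ^ 2)) *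
            (JF X k (fun x => χ x * (u x - c) - y' x) + ∑ w ∈ N, y' w ^ 2 / σ w) +
          Kd * (2 * (∑ x ∈ X, ρ x) + 2 * #N) * ∑ x ∈ X, ρ x * (u x - c) ^ 2 := by
  obtain ⟨y0, hy0, hmin⟩ := exists_min (X := X) (N := N) (σ := σ) h.k0 h.s0 u
  refine ⟨y0, hy0, fun c y' hy' => ?_⟩
  obtain ⟨f, hf⟩ : ∃ f : T → ℝ, f = fun x => χ x * (u x - c) := ⟨_, rfl⟩
  have hfχ : ∀ x ∈ X, χ x = 0 → f x = 0 := by
    intro x _ hx
    rw [hf]
    simp only [hx, zero_mul]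
  obtain ⟨y1, hy1, hlow⟩ := h.low f hfχ
  have hup := h.up f hfχ y' hy'
  have hm := hmin y1 hy1
  have hdef := h.defect (fun x => u x - c) y1 hy1
  rw [JF_add_const] at hdef
  have hfe : (fun x => χ x * (u x - c) - y' x) = fun x => f x - y' x := by
    rw [hf]
  have hfe1 : (fun x => χ x * (u x - c) - y1 x) = fun x => f x - y1 x := by
    rw [hf]
  rw [hfe1, ← hf] at hdef
  rw [hfe]
  obtain ⟨Z, hZ⟩ : ∃ Z, Z = JF X k (fun x => f x - y' x) + ∑ w ∈ N, y' w ^ 2 / σ w := ⟨_, rfl⟩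
  rw [← hZ] at hup ⊢
  have e1 : JF X k (fun x => u x - y1 x) = JF X k (fun x => (u x - c) - y1 x) := by
    rw [← JF_add_const (fun x => u x - y1 x) c]
    exact JF_congr fun x _ => by ring
  have hK := h.K0
  have hε := h.e0
  have hKa := h.a0
  have hR : 0 ≤ ∑ x ∈ X, ρ x := sum_nonneg fun x hx => h.r0 x hx
  have hy0' : 0 ≤ ∑ w ∈ N, y1 w ^ 2 / σ w :=
    sum_nonneg fun w hw => div_nonneg (sq_nonneg _) (h.s0 w hw).le
  have hlow2 : JF X k (fun x => f x - y1 x) + ∑ w ∈ N, y1 w ^ 2 / σ w ≤ (1 + ε) ^ 2 * Z := by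
    have := mul_le_mul_of_nonneg_left hup (by linarith : 0 ≤ 1 + ε)
    calc _ ≤ (1 + ε) * JF X k' f := hlow
      _ ≤ (1 + ε) * ((1 + ε) * Z) := this
      _ = _ := by ring
  have hlow3 : JF X k (fun x => f x - y1 x) + ∑ w ∈ N, y1 w ^ 2 / σ w ≤
      JF X k' f + ε * (1 + ε) * Z := by
    have := mul_le_mul_of_nonneg_left hup hε
    calc _ ≤ (1 + ε) * JF X k' f := hlow
      _ = JF X k' f + ε * JF X k' f := by ring
      _ ≤ JF X k' f + ε * ((1 + ε) * Z) := by linarith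
      _ = _ := by ring
  have hanc : ∑ w ∈ N, (f w - y1 w) ^ 2 ≤ Ka * ((1 + ε) ^ 2 * Z) := by
    have h1 := h.anc (fun x => f x - y1 x) (fun x hx hχ => by
      have hxN : x ∉ N := fun hc => by
        have := h.cX x (h.NX1 hc)
        rw [hχ] at this
        norm_num at this
      rw [hfχ x hx hχ, hy1 x hxN, sub_zero])
    exact h1.trans (mul_le_mul_of_nonneg_left (by linarith) hKa)
  have hanc' : ∑ w ∈ N, (χ w * (u w - c) - y1 w) ^ 2 ≤ Ka * ((1 + ε) ^ 2 * Z) := by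
    rw [hf] at hanc
    exact hanc
  have s2 : Kd * (∑ x ∈ X, ρ x) * ∑ w ∈ N, (χ w * (u w - c) - y1 w) ^ 2 ≤
      Kd * (∑ x ∈ X, ρ x) * (Ka * (1 + ε) ^ 2) * Z := by
    have : Kd * (∑ x ∈ X, ρ x) * (Ka * (1 + ε) ^ 2) * Z =
        Kd * (∑ x ∈ X, ρ x) * (Ka * ((1 + ε) ^ 2 * Z)) := by ring
    rw [this]
    exact mul_le_mul_of_nonneg_left hanc' (mul_nonneg hK hR)
  have hd2 := (abs_le.1 hdef).2
  linarith

/-- one site parallel sum -/
theorem par {m dl σ s y : ℝ} (hm : 0 < m) (hdl : 0 ≤ dl) (hσ : 0 < σ) :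
    s ^ 2 / ((1 + dl) / m + σ) ≤ m * (s - y) ^ 2 / (1 + dl) + y ^ 2 / σ := by
  have h1 : 0 < 1 + dl := by linarith
  have h2 : 0 < (1 + dl) / m + σ := by positivity
  have h3 : m * (s - y) ^ 2 / (1 + dl) + y ^ 2 / σ =
      (m * (s - y) ^ 2 * σ + y ^ 2 * (1 + dl)) / ((1 + dl) * σ) := by
    field_simp
  have h4 : s ^ 2 / ((1 + dl) / m + σ) = s ^ 2 * m / ((1 + dl) + σ * m) := by
    field_simp
  rw [h3, h4, div_le_div_iff₀ (by positivity) (by positivity)]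
  nlinarith [sq_nonneg (σ * m * (s - y) - (1 + dl) * y), mul_pos hσ hm, mul_pos h1 hσ,
    mul_nonneg (mul_pos hσ hm).le (sq_nonneg (s - y))]

omit [Fintype T] in
/-- the infimal convolution is at most `4 ∑ m'_x g_x²`, `m' = 1/(1/m + σ)` on `N` -/
theorem rq_le (hk : ∀ x ∈ X, ∀ y ∈ X, 0 ≤ k x y) (hs : ∀ x ∈ X, ∀ y ∈ X, k x y = k y x)
    (hNX : N ⊆ X) {m m' : T → ℝ} (hm : ∀ x ∈ X, 0 < m x) (h2 : ∀ x ∈ X, ∑ y ∈ X, k x y ≤ m x)
    (hσ : ∀ w ∈ N, 0 < σ w) (hmN : ∀ w ∈ N, m' w = 1 / (1 / m w + σ w))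
    (hmX : ∀ x ∈ X, x ∉ N → m' x = m x) (g h : T → ℝ) :
    ∃ y : T → ℝ, (∀ x, x ∉ N → y x = 0) ∧
      JF X k (fun x => g x + h x - y x) + ∑ w ∈ N, y w ^ 2 / σ w ≤
        4 * ∑ x ∈ X, m' x * g x ^ 2 + 2 * JF X k h := by
  obtain ⟨y, hy⟩ : ∃ y : T → ℝ, y = fun x => if x ∈ N then
      (4 * m x * σ x / (1 + 4 * m x * σ x)) * g x else 0 := ⟨_, rfl⟩
  refine ⟨y, fun x hx => by rw [hy]; simp only [if_neg hx], ?_⟩
  have e1 : (fun x => g x + h x - y x) = fun x => (g x - y x) + h x := by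
    funext x
    ring
  rw [e1]
  have e2 := JF_add_le (X := X) hk (fun x => g x - y x) h
  have e3 := JF_le_two (X := X) hk hs h2 (fun x => g x - y x)
  have e4 : 4 * ∑ x ∈ X, m x * (g x - y x) ^ 2 + ∑ w ∈ N, y w ^ 2 / σ w ≤
      4 * ∑ x ∈ X, m' x * g x ^ 2 := by
    have f1 : ∑ w ∈ N, y w ^ 2 / σ w = ∑ x ∈ X, if x ∈ N then y x ^ 2 / σ x else 0 := by
      rw [← sum_filter, filter_mem_eq_inter, inter_eq_right.2 hNX]
    rw [f1, mul_sum, mul_sum, ← sum_add_distrib]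
    refine sum_le_sum fun x hx => ?_
    by_cases hxN : x ∈ N
    · rw [if_pos hxN, hmN x hxN]
      have hm0 := hm x hx
      have hs0 := hσ x hxN
      have e5 : y x = (4 * m x * σ x / (1 + 4 * m x * σ x)) * g x := by
        rw [hy]
        simp only [if_pos hxN]
      have p1 : 0 < 1 + 4 * m x * σ x := by positivity
      have p2 : 0 < 1 + m x * σ x := by positivity
      have e6 : 4 * (m x * (g x - y x) ^ 2) + y x ^ 2 / σ x =
          4 * m x / (1 + 4 * m x * σ x) * g x ^ 2 := by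
        rw [e5]
        field_simp
        ring
      have e7 : 4 * (1 / (1 / m x + σ x) * g x ^ 2) = 4 * m x / (1 + m x * σ x) * g x ^ 2 := by
        field_simp
      rw [e6, e7]
      refine mul_le_mul_of_nonneg_right ?_ (sq_nonneg _)
      refine div_le_div_of_nonneg_left (by positivity) p2 ?_
      have := mul_pos hm0 hs0
      linarith
    · rw [if_neg hxN, hmX x hx hxN]
      have e5 : y x = 0 := by
        rw [hy]
        simp only [if_neg hxN]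
      rw [e5, sub_zero, add_zero]
  linarith

/-- **(H4low) after the step.**  Abstract forms: `E` before, `E'` after, `cc` the constant near the cell, `Ec` bound of the cut-off part,
`Et` bound of the tail; `m'` = classical value of `m` after the step. -/
theorem Cell.h4l (h : Cell X N X1 k k' σ χ ρ Kd ε Ka) {m m' dl q' : T → ℝ} {e1 e2 : ℝ}
    {E E' Ec Et cc : (T → ℝ) → ℝ}
    (he1 : ε * (1 + ε) + Kd * (∑ x ∈ X, ρ x) * (Ka * (1 + ε) ^ 2) ≤ e1)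
    (he2 : Kd * (2 * (∑ x ∈ X, ρ x) + 2 * #N) ≤ e2)
    (hm : ∀ x ∈ X, 0 < m x) (hdl : ∀ x ∈ X, 0 ≤ dl x) (h2 : ∀ x ∈ X, ∑ y ∈ X, k x y ≤ m x)
    (hmN : ∀ w ∈ N, m' w = 1 / (1 / m w + σ w)) (hmX : ∀ x ∈ X, x ∉ N → m' x = m x)
    (hlow : ∀ v : T → ℝ, ∃ a : T → ℝ,
      E a + ∑ x ∈ X, m x * (v x - a x) ^ 2 / (1 + dl x) ≤ JF X k v)
    (hc : ∀ a, JF X k (fun x => χ x * (a x - cc a)) ≤ Ec a)
    (ht : ∀ a, ∑ x ∈ X, ρ x * (a x - cc a) ^ 2 ≤ Et a)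
    (hE : ∀ a, E' a + (2 * e1 * Ec a + 2 * e2 * Et a) ≤ E a)
    (hqN : ∀ x ∈ N, q' x + (4 * e1 * m' x * χ x ^ 2 + 2 * e2 * ρ x) ≤
      1 / ((1 + dl x) / m x + σ x))
    (hqX : ∀ x ∈ X, x ∉ N → q' x + (4 * e1 * m' x * χ x ^ 2 + 2 * e2 * ρ x) ≤ m x / (1 + dl x))
    (u : T → ℝ) : ∃ a : T → ℝ, E' a + ∑ x ∈ X, q' x * (u x - a x) ^ 2 ≤ JF X k' u := by
  obtain ⟨y0, hy0, hg⟩ := h.glow u
  obtain ⟨a, ha⟩ := hlow (fun x => u x - y0 x)
  refine ⟨a, ?_⟩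
  obtain ⟨c, hcc⟩ : ∃ c, c = cc a := ⟨_, rfl⟩
  have hc' := hc a
  have ht' := ht a
  rw [← hcc] at hc' ht'
  obtain ⟨y', hy', hC⟩ := rq_le (N := N) (σ := σ) h.k0 h.ks h.NX hm h2 h.s0 hmN hmX
    (fun x => χ x * (u x - a x)) (fun x => χ x * (a x - c))
  have hB := hg c y' hy'
  have hE' := hE a
  have c1 : (fun x => χ x * (u x - c) - y' x) =
      fun x => χ x * (u x - a x) + χ x * (a x - c) - y' x := by
    funext x
    ring
  rw [c1] at hB
  obtain ⟨Z, hZ⟩ : ∃ Z, Z = JF X k (fun x => χ x * (u x - a x) + χ x * (a x - c) - y' x) +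
      ∑ w ∈ N, y' w ^ 2 / σ w := ⟨_, rfl⟩
  rw [← hZ] at hB hC
  have hZ0 : 0 ≤ Z := by
    rw [hZ]
    have q1 := JF_nonneg (X := X) h.k0 (fun x => χ x * (u x - a x) + χ x * (a x - c) - y' x)
    have q2 : 0 ≤ ∑ w ∈ N, y' w ^ 2 / σ w :=
      sum_nonneg fun w hw => div_nonneg (sq_nonneg _) (h.s0 w hw).le
    linarith
  have hR : 0 ≤ ∑ x ∈ X, ρ x := sum_nonneg fun x hx => h.r0 x hx
  have he1' : 0 ≤ e1 := by
    refine le_trans ?_ he1
    have h1 := h.K0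
    have h3 := h.e0
    have h4 := h.a0
    positivity
  have he2' : 0 ≤ e2 := by
    refine le_trans ?_ he2
    have h1 := h.K0
    positivity
  -- cut-off part
  have hC2 : Z ≤ 4 * ∑ x ∈ X, m' x * (χ x ^ 2 * (u x - a x) ^ 2) + 2 * Ec a := by
    have c4 : ∑ x ∈ X, m' x * (χ x * (u x - a x)) ^ 2 =
        ∑ x ∈ X, m' x * (χ x ^ 2 * (u x - a x) ^ 2) :=
      sum_congr rfl fun x _ => by ring
    rw [c4] at hC
    linarith
  -- tail part
  have hD : ∑ x ∈ X, ρ x * (u x - c) ^ 2 ≤ 2 * ∑ x ∈ X, ρ x * (u x - a x) ^ 2 + 2 * Et a := by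
    have d1 : ∑ x ∈ X, ρ x * (u x - c) ^ 2 ≤
        2 * ∑ x ∈ X, ρ x * (u x - a x) ^ 2 + 2 * ∑ x ∈ X, ρ x * (a x - c) ^ 2 := by
      rw [mul_sum, mul_sum, ← sum_add_distrib]
      refine sum_le_sum fun x hx => ?_
      nlinarith [mul_nonneg (h.r0 x hx) (sq_nonneg ((u x - a x) - (a x - c)))]
    linarith
  -- parallel sum
  have hF : ∑ x ∈ X, (q' x + (4 * e1 * m' x * χ x ^ 2 + 2 * e2 * ρ x)) * (u x - a x) ^ 2 ≤
      ∑ x ∈ X, m x * ((u x - y0 x) - a x) ^ 2 / (1 + dl x) + ∑ w ∈ N, y0 w ^ 2 / σ w := by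
    have f1 : ∑ w ∈ N, y0 w ^ 2 / σ w = ∑ x ∈ X, if x ∈ N then y0 x ^ 2 / σ x else 0 := by
      rw [← sum_filter, filter_mem_eq_inter, inter_eq_right.2 h.NX]
    rw [f1, ← sum_add_distrib]
    refine sum_le_sum fun x hx => ?_
    by_cases hxN : x ∈ N
    · rw [if_pos hxN]
      have p1 := par (s := u x - a x) (y := y0 x) (hm x hx) (hdl x hx) (h.s0 x hxN)
      have p2 := mul_le_mul_of_nonneg_right (hqN x hxN) (sq_nonneg (u x - a x))
      rw [one_div_mul_eq_div] at p2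
      have p3 : (u x - a x) - y0 x = (u x - y0 x) - a x := by ring
      rw [p3] at p1
      exact p2.trans p1
    · rw [if_neg hxN, add_zero, hy0 x hxN, sub_zero]
      have p2 := mul_le_mul_of_nonneg_right (hqX x hx hxN) (sq_nonneg (u x - a x))
      refine p2.trans (le_of_eq ?_)
      ring
  have hF' : ∑ x ∈ X, (q' x + (4 * e1 * m' x * χ x ^ 2 + 2 * e2 * ρ x)) * (u x - a x) ^ 2 =
      ∑ x ∈ X, q' x * (u x - a x) ^ 2 +
        (4 * e1 * ∑ x ∈ X, m' x * (χ x ^ 2 * (u x - a x) ^ 2) +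
          2 * e2 * ∑ x ∈ X, ρ x * (u x - a x) ^ 2) := by
    rw [mul_sum, mul_sum, ← sum_add_distrib, ← sum_add_distrib]
    exact sum_congr rfl fun x _ => by ring
  have hG : (ε * (1 + ε) + Kd * (∑ x ∈ X, ρ x) * (Ka * (1 + ε) ^ 2)) * Z ≤
        e1 * (4 * ∑ x ∈ X, m' x * (χ x ^ 2 * (u x - a x) ^ 2) + 2 * Ec a) :=
    (mul_le_mul_of_nonneg_right he1 hZ0).trans (mul_le_mul_of_nonneg_left hC2 he1')
  have hS0 : 0 ≤ ∑ x ∈ X, ρ x * (u x - c) ^ 2 :=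
    sum_nonneg fun x hx => mul_nonneg (h.r0 x hx) (sq_nonneg _)
  have hH : Kd * (2 * (∑ x ∈ X, ρ x) + 2 * #N) * ∑ x ∈ X, ρ x * (u x - c) ^ 2 ≤
      e2 * (2 * ∑ x ∈ X, ρ x * (u x - a x) ^ 2 + 2 * Et a) :=
    (mul_le_mul_of_nonneg_right he2 hS0).trans (mul_le_mul_of_nonneg_left hD he2')
  rw [hF'] at hF
  linarith [mul_add e1 (4 * ∑ x ∈ X, m' x * (χ x ^ 2 * (u x - a x) ^ 2)) (2 * Ec a),
    mul_add e2 (2 * ∑ x ∈ X, ρ x * (u x - a x) ^ 2) (2 * Et a)]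

omit [Fintype T] in
/-- **(H4up) after the step**; `Et` bounds the tail with the weights `r ≥ 0`, `Kd (2 ∑ρ + 2 #N) ρ ≤ e2 r`, on `N` also
`Kd (2 ∑ρ + 2 #N) ρ + Kd ∑ρ ≤ e2 r` -/
theorem Cell.h4u (h : Cell X N X1 k k' σ χ ρ Kd ε Ka) {e2 : ℝ} {r : T → ℝ}
    {Ec Et cc : (T → ℝ) → ℝ} (he2 : 0 ≤ e2)
    (hr : ∀ x ∈ X, Kd * (2 * (∑ x ∈ X, ρ x) + 2 * #N) * ρ x +
      (if x ∈ N then Kd * (∑ x ∈ X, ρ x) else 0) ≤ e2 * r x)
    (hc : ∀ a, JF X k (fun x => χ x * (a x - cc a)) ≤ Ec a)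
    (ht : ∀ a, ∑ x ∈ X, r x * (a x - cc a) ^ 2 ≤ Et a)
    (a : T → ℝ) : JF X k' a ≤ JF X k a + (ε * Ec a + e2 * Et a) := by
  have h1 := h.gup a (cc a)
  have h2 := mul_le_mul_of_nonneg_left (hc a) h.e0
  have h5 : Kd * (2 * (∑ x ∈ X, ρ x) + 2 * #N) * (∑ x ∈ X, ρ x * (a x - cc a) ^ 2) +
        Kd * (∑ x ∈ X, ρ x) * ∑ w ∈ N, (a w - cc a) ^ 2 ≤
      e2 * ∑ x ∈ X, r x * (a x - cc a) ^ 2 := by
    have f1 : ∑ w ∈ N, (a w - cc a) ^ 2 = ∑ x ∈ X, if x ∈ N then (a x - cc a) ^ 2 else 0 := by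
      rw [← sum_filter, filter_mem_eq_inter, inter_eq_right.2 h.NX]
    obtain ⟨A, hA⟩ : ∃ A, A = Kd * (2 * (∑ x ∈ X, ρ x) + 2 * #N) := ⟨_, rfl⟩
    obtain ⟨B, hB⟩ : ∃ B, B = Kd * (∑ x ∈ X, ρ x) := ⟨_, rfl⟩
    rw [f1, ← hA, ← hB, mul_sum, mul_sum, ← sum_add_distrib, mul_sum]
    refine sum_le_sum fun x hx => ?_
    have h6 := mul_le_mul_of_nonneg_right (hr x hx) (sq_nonneg (a x - cc a))
    rw [← hA, ← hB] at h6
    refine le_trans (le_of_eq ?_) (h6.trans (le_of_eq ?_))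
    · split_ifs <;> ring
    · ring
  have h7 := mul_le_mul_of_nonneg_left (ht a) he2
  linarith

end Pool.Agent.ANF.Glob
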