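import Mathlib

/-!
# ANF / Glob / Core (helper60): globalisation of a one cell form bound, lattice free part

`JF X k u = (1/2) ∑_{x,y ∈ X} k x y (u x - u y)²`.  `k` = kernel before the step, `k'` = kernel after the step, `N` = the sites which
are read, `σ` = classical increment of `m⁻¹` on `N`.  Input: bounds for functions which vanish where `χ = 0`; output: bounds for every
function, with an error which only contains `χ (u - c)` for an arbitrary constant `c` and a tiny tail.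
-/

open Finset

noncomputable section

namespace Pool.Agent.ANF.Glob

variable {T : Type*} [Fintype T] [DecidableEq T]

/-- jump form -/
def JF (X : Finset T) (k : T → T → ℝ) (u : T → ℝ) : ℝ :=
  (1 / 2) * ∑ x ∈ X, ∑ y ∈ X, k x y * (u x - u y) ^ 2

/-- its bilinear form -/
def JB (X : Finset T) (k : T → T → ℝ) (u v : T → ℝ) : ℝ :=
  (1 / 2) * ∑ x ∈ X, ∑ y ∈ X, k x y * ((u x - u y) * (v x - v y))

variable {X : Finset T} {k k' : T → T → ℝ}

omit [Fintype T] [DecidableEq T] in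
theorem JF_nonneg (hk : ∀ x ∈ X, ∀ y ∈ X, 0 ≤ k x y) (u : T → ℝ) : 0 ≤ JF X k u := by
  unfold JF
  refine mul_nonneg (by norm_num) (sum_nonneg fun x hx => sum_nonneg fun y hy => ?_)
  exact mul_nonneg (hk x hx y hy) (sq_nonneg _)

omit [Fintype T] [DecidableEq T] in
theorem JF_congr {u v : T → ℝ} (h : ∀ x ∈ X, u x = v x) : JF X k u = JF X k v := by
  unfold JF
  congr 1
  refine sum_congr rfl fun x hx => sum_congr rfl fun y hy => ?_
  rw [h x hx, h y hy]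

omit [Fintype T] [DecidableEq T] in
theorem JF_add_const (u : T → ℝ) (c : ℝ) : JF X k (fun x => u x - c) = JF X k u := by
  unfold JF
  congr 1
  refine sum_congr rfl fun x _ => sum_congr rfl fun y _ => ?_
  ring

omit [Fintype T] [DecidableEq T] in
theorem JF_sub (u v : T → ℝ) :
    JF X k (fun x => u x - v x) = JF X k u - 2 * JB X k u v + JF X k v := by
  unfold JF JB
  have : ∀ x y, k x y * ((u x - v x) - (u y - v y)) ^ 2 =
      k x y * (u x - u y) ^ 2 - 2 * (k x y * ((u x - u y) * (v x - v y))) +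
        k x y * (v x - v y) ^ 2 := by
    intro x y
    ring
  simp only [this, sum_add_distrib, sum_sub_distrib, ← mul_sum]
  ring

omit [Fintype T] [DecidableEq T] in
theorem JB_add_left (u v w : T → ℝ) :
    JB X k (fun x => u x + v x) w = JB X k u w + JB X k v w := by
  unfold JB
  rw [← mul_add, ← sum_add_distrib]
  congr 1
  refine sum_congr rfl fun x _ => ?_
  rw [← sum_add_distrib]
  refine sum_congr rfl fun y _ => ?_
  ring

omit [Fintype T] [DecidableEq T] in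
/-- `(u + v)² ≤ 2 u² + 2 v²` for forms -/
theorem JF_add_le (hk : ∀ x ∈ X, ∀ y ∈ X, 0 ≤ k x y) (u v : T → ℝ) :
    JF X k (fun x => u x + v x) ≤ 2 * JF X k u + 2 * JF X k v := by
  unfold JF
  rw [← mul_assoc, ← mul_assoc, mul_comm (2 : ℝ) (1 / 2), mul_assoc, mul_assoc, ← mul_add]
  refine mul_le_mul_of_nonneg_left ?_ (by norm_num)
  rw [mul_sum, mul_sum, ← sum_add_distrib]
  refine sum_le_sum fun x hx => ?_
  rw [mul_sum, mul_sum, ← sum_add_distrib]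
  refine sum_le_sum fun y hy => ?_
  have := hk x hx y hy
  nlinarith [mul_nonneg this (sq_nonneg ((u x - u y) - (v x - v y)))]

omit [Fintype T] [DecidableEq T] in
/-- `Q ≤ 2 m` -/
theorem JF_le_two (hk : ∀ x ∈ X, ∀ y ∈ X, 0 ≤ k x y) (hs : ∀ x ∈ X, ∀ y ∈ X, k x y = k y x)
    {m : T → ℝ} (hm : ∀ x ∈ X, ∑ y ∈ X, k x y ≤ m x) (f : T → ℝ) :
    JF X k f ≤ 2 * ∑ x ∈ X, m x * f x ^ 2 := by
  have h1 : JF X k f ≤ ∑ x ∈ X, ∑ y ∈ X, k x y * (f x ^ 2 + f y ^ 2) := by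
    unfold JF
    rw [mul_sum]
    refine sum_le_sum fun x hx => ?_
    rw [mul_sum]
    refine sum_le_sum fun y hy => ?_
    have := hk x hx y hy
    nlinarith [mul_nonneg this (sq_nonneg (f x + f y))]
  have h2 : ∑ x ∈ X, ∑ y ∈ X, k x y * (f x ^ 2 + f y ^ 2) =
      2 * ∑ x ∈ X, (∑ y ∈ X, k x y) * f x ^ 2 := by
    have e1 : ∑ x ∈ X, ∑ y ∈ X, k x y * f y ^ 2 = ∑ x ∈ X, ∑ y ∈ X, k x y * f x ^ 2 := by
      rw [sum_comm]
      exact sum_congr rfl fun x hx => sum_congr rfl fun y hy => by rw [hs y hy x hx]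
    simp only [mul_add, sum_add_distrib]
    rw [e1, ← two_mul]
    congr 1
    exact sum_congr rfl fun x _ => (sum_mul _ _ _).symm
  rw [h2] at h1
  refine h1.trans (mul_le_mul_of_nonneg_left ?_ (by norm_num))
  exact sum_le_sum fun x hx => mul_le_mul_of_nonneg_right (hm x hx) (sq_nonneg _)

/-- Data of one step, lattice free.  `ρ` = weight of the sites (relative to the NEW `m`), `Kd` = tiny constant, `Ka` = constant of the
anchor inequality (functions which vanish off the ball). -/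
structure Cell (X N X1 : Finset T) (k k' : T → T → ℝ) (σ χ ρ : T → ℝ) (Kd ε Ka : ℝ) : Prop where
  NX : N ⊆ X
  NX1 : N ⊆ X1
  k0 : ∀ x ∈ X, ∀ y ∈ X, 0 ≤ k x y
  ks : ∀ x ∈ X, ∀ y ∈ X, k x y = k y x
  ks' : ∀ x ∈ X, ∀ y ∈ X, k' x y = k' y x
  K0 : 0 ≤ Kd
  e0 : 0 ≤ ε
  a0 : 0 ≤ Ka
  s0 : ∀ w ∈ N, 0 < σ w
  c0 : ∀ x, 0 ≤ χ x
  c1 : ∀ x, χ x ≤ 1
  cX : ∀ x ∈ X1, χ x = 1
  r0 : ∀ x ∈ X, 0 ≤ ρ x
  /-- far pairs: the change of the kernel is tiny relative to the weights -/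
  kd : ∀ x ∈ X, x ∉ N → ∀ y ∈ X, y ∉ X1 → |k' x y - k x y| ≤ Kd * (ρ x * ρ y)
  /-- the old kernel between the sites which are read and far sites -/
  kN : ∀ w ∈ N, ∀ y ∈ X, y ∉ X1 → k w y ≤ Kd * ρ y
  /-- the new kernel between the sites which are read and far sites -/
  kN' : ∀ w ∈ N, ∀ y ∈ X, y ∉ X1 → |k' w y| ≤ Kd * (ρ w * ρ y)
  /-- anchor inequality -/
  anc : ∀ φ : T → ℝ, (∀ x ∈ X, χ x = 0 → φ x = 0) → ∑ w ∈ N, φ w ^ 2 ≤ Ka * JF X k φ
  /-- lower block bound: `Q'(f)` is at least the infimal convolution, up to a relative error -/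
  low : ∀ f : T → ℝ, (∀ x ∈ X, χ x = 0 → f x = 0) → ∃ y : T → ℝ, (∀ x, x ∉ N → y x = 0) ∧
    JF X k (fun x => f x - y x) + ∑ w ∈ N, y w ^ 2 / σ w ≤ (1 + ε) * JF X k' f
  /-- upper block bound: `Q'(f)` is at most the infimal convolution, up to a relative error -/
  up : ∀ f : T → ℝ, (∀ x ∈ X, χ x = 0 → f x = 0) → ∀ y : T → ℝ, (∀ x, x ∉ N → y x = 0) →
    JF X k' f ≤ (1 + ε) * (JF X k (fun x => f x - y x) + ∑ w ∈ N, y w ^ 2 / σ w)

section cell

variable {N X1 : Finset T} {σ χ ρ : T → ℝ} {Kd ε Ka : ℝ}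

omit [Fintype T] [DecidableEq T] in
/-- the two cross terms as one double sum -/
theorem JF_dif (p q p' q' : T → ℝ) :
    (JF X k p - JF X k q) - (JF X k' p' - JF X k' q') =
      (1 / 2) * ∑ x ∈ X, ∑ y ∈ X, (k x y * ((p x - p y) ^ 2 - (q x - q y) ^ 2) -
        k' x y * ((p' x - p' y) ^ 2 - (q' x - q' y) ^ 2)) := by
  unfold JF
  rw [← mul_sub, ← mul_sub, ← mul_sub, ← sum_sub_distrib, ← sum_sub_distrib, ← sum_sub_distrib]
  congr 1
  refine sum_congr rfl fun x _ => ?_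
  rw [← sum_sub_distrib, ← sum_sub_distrib, ← sum_sub_distrib]
  refine sum_congr rfl fun y _ => ?_
  ring

omit [Fintype T] [DecidableEq T] in
/-- pointwise bound, `x` not read, `y` far -/
theorem Cell.pt1 (h : Cell X N X1 k k' σ χ ρ Kd ε Ka) (a y1 : T → ℝ)
    (hy1 : ∀ x, x ∉ N → y1 x = 0) {x y : T} (hx : x ∈ X) (hxN : x ∉ N) (hy : y ∈ X)
    (hy1' : y ∉ X1) :
    |k x y * (((a x - y1 x) - (a y - y1 y)) ^ 2 -
        ((χ x * a x - y1 x) - (χ y * a y - y1 y)) ^ 2) -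
      k' x y * ((a x - a y) ^ 2 - (χ x * a x - χ y * a y) ^ 2)| ≤
      2 * (Kd * (ρ x * ρ y)) * (a x ^ 2 + a y ^ 2) := by
  have hyN : y ∉ N := fun hc => hy1' (h.NX1 hc)
  rw [hy1 x hxN, hy1 y hyN]
  have e1 : k x y * (((a x - 0) - (a y - 0)) ^ 2 - ((χ x * a x - 0) - (χ y * a y - 0)) ^ 2) -
      k' x y * ((a x - a y) ^ 2 - (χ x * a x - χ y * a y) ^ 2) =
      -(k' x y - k x y) * ((a x - a y) ^ 2 - (χ x * a x - χ y * a y) ^ 2) := by ring
  rw [e1, abs_mul, abs_neg]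
  have a1 : |(a x - a y) ^ 2 - (χ x * a x - χ y * a y) ^ 2| ≤ 2 * (a x ^ 2 + a y ^ 2) := by
    have hx1 : (χ x * a x) ^ 2 ≤ a x ^ 2 := by
      rw [mul_pow]
      have : χ x ^ 2 ≤ 1 := pow_le_one₀ (h.c0 x) (h.c1 x)
      nlinarith [sq_nonneg (a x)]
    have hy1 : (χ y * a y) ^ 2 ≤ a y ^ 2 := by
      rw [mul_pow]
      have : χ y ^ 2 ≤ 1 := pow_le_one₀ (h.c0 y) (h.c1 y)
      nlinarith [sq_nonneg (a y)]
    rw [abs_le]
    constructor
    · nlinarith [sq_nonneg (a x - a y), sq_nonneg (χ x * a x + χ y * a y)]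
    · nlinarith [sq_nonneg (a x + a y), sq_nonneg (χ x * a x - χ y * a y)]
  have a2 := h.kd x hx hxN y hy hy1'
  calc |k' x y - k x y| * |(a x - a y) ^ 2 - (χ x * a x - χ y * a y) ^ 2| ≤
      (Kd * (ρ x * ρ y)) * (2 * (a x ^ 2 + a y ^ 2)) :=
        mul_le_mul a2 a1 (abs_nonneg _)
          (mul_nonneg h.K0 (mul_nonneg (h.r0 x hx) (h.r0 y hy)))
    _ = _ := by ring

omit [Fintype T] [DecidableEq T] in
/-- pointwise bound, `w` read, `y` far -/
theorem Cell.pt2 (h : Cell X N X1 k k' σ χ ρ Kd ε Ka) (a y1 : T → ℝ)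
    (hy1 : ∀ x, x ∉ N → y1 x = 0) {w y : T} (hw : w ∈ N) (hy : y ∈ X) (hy1' : y ∉ X1) :
    |k w y * (((a w - y1 w) - (a y - y1 y)) ^ 2 -
        ((χ w * a w - y1 w) - (χ y * a y - y1 y)) ^ 2) -
      k' w y * ((a w - a y) ^ 2 - (χ w * a w - χ y * a y) ^ 2)| ≤
      Kd * ρ y * ((χ w * a w - y1 w) ^ 2 + 2 * a y ^ 2) +
        2 * (Kd * (ρ w * ρ y)) * (a w ^ 2 + a y ^ 2) := by
  have hyN : y ∉ N := fun hc => hy1' (h.NX1 hc)
  have hwX := h.NX hw
  rw [hy1 y hyN, h.cX w (h.NX1 hw)]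
  -- `(s - t)² - (s - χ t)² = -2 s (1-χ) t + (1-χ²) t²`
  have key : ∀ s : ℝ, |(s - a y) ^ 2 - (s - χ y * a y) ^ 2| ≤ s ^ 2 + 2 * a y ^ 2 := by
    intro s
    have c0 := h.c0 y
    have c1 := h.c1 y
    have e : (s - a y) ^ 2 - (s - χ y * a y) ^ 2 =
        -(2 * s * ((1 - χ y) * a y)) + (1 - χ y ^ 2) * a y ^ 2 := by ring
    have b1 : ((1 - χ y) * a y) ^ 2 ≤ (1 - χ y) ^ 2 * a y ^ 2 := by rw [mul_pow]
    have b2 : (1 - χ y) ^ 2 + (1 - χ y ^ 2) ≤ 2 := by nlinarith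
    have b3 : 0 ≤ 1 - χ y ^ 2 := by nlinarith
    have b4 := sq_nonneg (a y)
    have b5 : (1 - χ y) ^ 2 * a y ^ 2 + (1 - χ y ^ 2) * a y ^ 2 ≤ 2 * a y ^ 2 := by nlinarith
    rw [e, abs_le]
    constructor
    · nlinarith [sq_nonneg (s - (1 - χ y) * a y), mul_nonneg b3 b4]
    · nlinarith [sq_nonneg (s + (1 - χ y) * a y), mul_nonneg b3 b4]
  have e1 : k w y * (((a w - y1 w) - (a y - 0)) ^ 2 -
        ((1 * a w - y1 w) - (χ y * a y - 0)) ^ 2) -
      k' w y * ((a w - a y) ^ 2 - (1 * a w - χ y * a y) ^ 2) =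
      k w y * (((a w - y1 w) - a y) ^ 2 - ((a w - y1 w) - χ y * a y) ^ 2) -
      k' w y * ((a w - a y) ^ 2 - (a w - χ y * a y) ^ 2) := by ring
  rw [e1]
  refine (abs_sub _ _).trans (add_le_add ?_ ?_)
  · rw [abs_mul, abs_of_nonneg (h.k0 w hwX y hy), one_mul]
    exact mul_le_mul (h.kN w hw y hy hy1') (key _) (abs_nonneg _)
      (mul_nonneg h.K0 (h.r0 y hy))
  · rw [abs_mul]
    have h1 := mul_le_mul (h.kN' w hw y hy hy1') (key (a w)) (abs_nonneg _)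
      (mul_nonneg h.K0 (mul_nonneg (h.r0 w hwX) (h.r0 y hy)))
    refine h1.trans ?_
    have h2 : 0 ≤ Kd * (ρ w * ρ y) := mul_nonneg h.K0 (mul_nonneg (h.r0 w hwX) (h.r0 y hy))
    nlinarith [sq_nonneg (a w), sq_nonneg (a y)]

omit [Fintype T] in
/-- **the defect**: the far part of `Q(a - y₁) - Q(χ a - y₁)` against `Q'(a) - Q'(χ a)` -/
theorem Cell.defect (h : Cell X N X1 k k' σ χ ρ Kd ε Ka) (a y1 : T → ℝ)
    (hy1 : ∀ x, x ∉ N → y1 x = 0) :
    |(JF X k (fun x => a x - y1 x) - JF X k (fun x => χ x * a x - y1 x)) -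
      (JF X k' a - JF X k' (fun x => χ x * a x))| ≤
      Kd * (2 * (∑ x ∈ X, ρ x) + 2 * #N) * ∑ x ∈ X, ρ x * a x ^ 2 +
        Kd * (∑ x ∈ X, ρ x) * ∑ w ∈ N, (χ w * a w - y1 w) ^ 2 := by
  rw [JF_dif, abs_mul, abs_of_pos (by norm_num : (0 : ℝ) < 1 / 2)]
  obtain ⟨φ, hφ⟩ : ∃ φ : T → ℝ, φ = fun x => χ x * a x - y1 x := ⟨_, rfl⟩
  have hφx : ∀ x, χ x * a x - y1 x = φ x := fun x => by rw [hφ]
  have hK := h.K0
  -- pointwise bound
  have key : ∀ x ∈ X, ∀ y ∈ X, |k x y * (((a x - y1 x) - (a y - y1 y)) ^ 2 -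
        ((χ x * a x - y1 x) - (χ y * a y - y1 y)) ^ 2) -
      k' x y * ((a x - a y) ^ 2 - (χ x * a x - χ y * a y) ^ 2)| ≤
      2 * (Kd * (ρ x * ρ y)) * (a x ^ 2 + a y ^ 2) +
        ((if x ∈ N then Kd * ρ y * (φ x ^ 2 + 2 * a y ^ 2) else 0) +
          if y ∈ N then Kd * ρ x * (φ y ^ 2 + 2 * a x ^ 2) else 0) := by
    intro x hx y hy
    have hρx := h.r0 x hx
    have hρy := h.r0 y hy
    have p1 : 0 ≤ 2 * (Kd * (ρ x * ρ y)) * (a x ^ 2 + a y ^ 2) := by positivity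
    have p2 : 0 ≤ if x ∈ N then Kd * ρ y * (φ x ^ 2 + 2 * a y ^ 2) else 0 := by
      split_ifs
      · positivity
      · exact le_rfl
    have p3 : 0 ≤ if y ∈ N then Kd * ρ x * (φ y ^ 2 + 2 * a x ^ 2) else 0 := by
      split_ifs
      · positivity
      · exact le_rfl
    by_cases hxX : x ∈ X1
    · by_cases hyX : y ∈ X1
      · rw [h.cX x hxX, h.cX y hyX]
        have e1 : k x y * (((a x - y1 x) - (a y - y1 y)) ^ 2 -
            ((1 * a x - y1 x) - (1 * a y - y1 y)) ^ 2) -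
            k' x y * ((a x - a y) ^ 2 - (1 * a x - 1 * a y) ^ 2) = 0 := by ring
        rw [e1, abs_zero]
        positivity
      · by_cases hxN : x ∈ N
        · have := h.pt2 a y1 hy1 hxN hy hyX
          rw [hφx x] at this
          rw [if_pos hxN]
          rw [hφx x]
          linarith
        · have := h.pt1 a y1 hy1 hx hxN hy hyX
          linarith
    · have hxN : x ∉ N := fun hc => hxX (h.NX1 hc)
      by_cases hyN : y ∈ N
      · have := h.pt2 a y1 hy1 hyN hx hxX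
        rw [hφx y] at this
        rw [if_pos hyN, if_neg hxN, zero_add]
        have e1 : k x y * (((a x - y1 x) - (a y - y1 y)) ^ 2 -
            ((χ x * a x - y1 x) - (χ y * a y - y1 y)) ^ 2) -
            k' x y * ((a x - a y) ^ 2 - (χ x * a x - χ y * a y) ^ 2) =
            k y x * (((a y - y1 y) - (a x - y1 x)) ^ 2 -
            ((χ y * a y - y1 y) - (χ x * a x - y1 x)) ^ 2) -
            k' y x * ((a y - a x) ^ 2 - (χ y * a y - χ x * a x) ^ 2) := by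
          rw [h.ks x hx y hy, h.ks' x hx y hy]
          ring
        rw [e1, hφx y]
        refine this.trans (le_of_eq ?_)
        ring
      · have := h.pt1 a y1 hy1 hy hyN hx hxX
        have e1 : k x y * (((a x - y1 x) - (a y - y1 y)) ^ 2 -
            ((χ x * a x - y1 x) - (χ y * a y - y1 y)) ^ 2) -
            k' x y * ((a x - a y) ^ 2 - (χ x * a x - χ y * a y) ^ 2) =
            k y x * (((a y - y1 y) - (a x - y1 x)) ^ 2 -
            ((χ y * a y - y1 y) - (χ x * a x - y1 x)) ^ 2) -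
            k' y x * ((a y - a x) ^ 2 - (χ y * a y - χ x * a x) ^ 2) := by
          rw [h.ks x hx y hy, h.ks' x hx y hy]
          ring
        rw [e1]
        have e2 : 2 * (Kd * (ρ y * ρ x)) * (a y ^ 2 + a x ^ 2) =
            2 * (Kd * (ρ x * ρ y)) * (a x ^ 2 + a y ^ 2) := by ring
        linarith
  -- summation
  have h2 : |∑ x ∈ X, ∑ y ∈ X, (k x y * (((a x - y1 x) - (a y - y1 y)) ^ 2 -
        ((χ x * a x - y1 x) - (χ y * a y - y1 y)) ^ 2) -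
      k' x y * ((a x - a y) ^ 2 - (χ x * a x - χ y * a y) ^ 2))| ≤
      ∑ x ∈ X, ∑ y ∈ X, (2 * (Kd * (ρ x * ρ y)) * (a x ^ 2 + a y ^ 2) +
        ((if x ∈ N then Kd * ρ y * (φ x ^ 2 + 2 * a y ^ 2) else 0) +
          if y ∈ N then Kd * ρ x * (φ y ^ 2 + 2 * a x ^ 2) else 0)) := by
    refine (abs_sum_le_sum_abs _ _).trans (sum_le_sum fun x hx => ?_)
    exact (abs_sum_le_sum_abs _ _).trans (sum_le_sum fun y hy => key x hx y hy)
  obtain ⟨R, hR⟩ : ∃ R, R = ∑ x ∈ X, ρ x := ⟨_, rfl⟩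
  obtain ⟨S, hS⟩ : ∃ S, S = ∑ x ∈ X, ρ x * a x ^ 2 := ⟨_, rfl⟩
  obtain ⟨F, hF⟩ : ∃ F, F = ∑ w ∈ N, φ w ^ 2 := ⟨_, rfl⟩
  have s1 : ∑ x ∈ X, ∑ y ∈ X, 2 * (Kd * (ρ x * ρ y)) * (a x ^ 2 + a y ^ 2) =
      4 * Kd * R * S := by
    have e1 : ∀ x y, 2 * (Kd * (ρ x * ρ y)) * (a x ^ 2 + a y ^ 2) =
        2 * Kd * ((ρ x * a x ^ 2) * ρ y) + 2 * Kd * (ρ x * (ρ y * a y ^ 2)) := by
      intro x y
      ring
    have e2 : ∑ x ∈ X, ∑ y ∈ X, (ρ x * a x ^ 2) * ρ y = S * R := by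
      rw [hS, hR, sum_mul_sum]
    have e3 : ∑ x ∈ X, ∑ y ∈ X, ρ x * (ρ y * a y ^ 2) = R * S := by
      rw [hS, hR, sum_mul_sum]
    have e4 : ∑ x ∈ X, ∑ y ∈ X, 2 * (Kd * (ρ x * ρ y)) * (a x ^ 2 + a y ^ 2) =
        2 * Kd * (∑ x ∈ X, ∑ y ∈ X, (ρ x * a x ^ 2) * ρ y) +
          2 * Kd * ∑ x ∈ X, ∑ y ∈ X, ρ x * (ρ y * a y ^ 2) := by
      rw [mul_sum, mul_sum, ← sum_add_distrib]
      refine sum_congr rfl fun x _ => ?_
      rw [mul_sum, mul_sum, ← sum_add_distrib]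
      exact sum_congr rfl fun y _ => e1 x y
    rw [e4, e2, e3]
    ring
  have s2 : ∑ x ∈ X, ∑ y ∈ X, (if x ∈ N then Kd * ρ y * (φ x ^ 2 + 2 * a y ^ 2) else 0) =
      Kd * (R * F + 2 * (#N : ℝ) * S) := by
    have e1 : ∀ x ∈ X, ∑ y ∈ X, (if x ∈ N then Kd * ρ y * (φ x ^ 2 + 2 * a y ^ 2) else 0) =
        if x ∈ N then Kd * (R * φ x ^ 2 + 2 * S) else 0 := by
      intro x _
      split_ifs
      · have e2 : ∑ y ∈ X, Kd * ρ y * (φ x ^ 2 + 2 * a y ^ 2) =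
            ∑ y ∈ X, (Kd * φ x ^ 2 * ρ y + 2 * Kd * (ρ y * a y ^ 2)) :=
          sum_congr rfl fun y _ => by ring
        rw [e2, sum_add_distrib, ← mul_sum, ← mul_sum, ← hR, ← hS]
        ring
      · exact sum_const_zero
    rw [sum_congr rfl e1, ← sum_filter, filter_mem_eq_inter, inter_eq_right.2 h.NX, ← mul_sum,
      sum_add_distrib, ← mul_sum, ← hF, sum_const, nsmul_eq_mul]
    ring
  have s3 : ∑ x ∈ X, ∑ y ∈ X, (if y ∈ N then Kd * ρ x * (φ y ^ 2 + 2 * a x ^ 2) else 0) =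
      Kd * (R * F + 2 * (#N : ℝ) * S) := by
    rw [sum_comm]
    exact s2
  have s4 : ∑ x ∈ X, ∑ y ∈ X, (2 * (Kd * (ρ x * ρ y)) * (a x ^ 2 + a y ^ 2) +
        ((if x ∈ N then Kd * ρ y * (φ x ^ 2 + 2 * a y ^ 2) else 0) +
          if y ∈ N then Kd * ρ x * (φ y ^ 2 + 2 * a x ^ 2) else 0)) =
      4 * Kd * R * S + (Kd * (R * F + 2 * (#N : ℝ) * S) + Kd * (R * F + 2 * (#N : ℝ) * S)) := by
    rw [← s1]
    nth_rewrite 1 [← s2]
    rw [← s3]
    rw [← sum_add_distrib, ← sum_add_distrib]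
    refine sum_congr rfl fun x _ => ?_
    rw [← sum_add_distrib, ← sum_add_distrib]
  rw [s4] at h2
  have hF' : ∑ w ∈ N, (χ w * a w - y1 w) ^ 2 = F := by
    rw [hF]
    exact sum_congr rfl fun w _ => by rw [hφx w]
  rw [hF', ← hR, ← hS]
  linarith

end cell

end Pool.Agent.ANF.Glob
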