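import Pool.Agent.ANF.Glob.Main

/-!
# ANF / Glob / Anchor (helper60): the anchor inequality

A function `φ` which vanishes off the ball of radius `R` around `c` is controlled on the sites which are read by the form of the medium,
`∑_N φ² ≤ Ka Q(φ)`, `Ka = 12 #N (1/mA + d (2 Rz + 1)/Dm)`: (H4low) of the medium, masses at least `mA` at the sites of `N` and at ONE
anchor site `z0` with `R ≤ dT z0 c ≤ Rz` (not read, not inert), coefficients at least `Dm`.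
-/

open scoped BigOperators
open Finset Matrix

noncomputable section

namespace Pool.Agent.ANF.Glob

open Pool.Agent.Kin Pool.Agent.APS Pool.Agent.AND Pool.Agent.ANP Pool.Agent.ANM Pool.Agent.ANF.Heat

variable {d L : ℕ} [NeZero L]

/-- the constant of the anchor inequality; `nN` = bound of the number of sites which are read -/
def KaC (d Rz : ℕ) (nN mA Dm : ℝ) : ℝ := 12 * nN * (1 / mA + d * (2 * (Rz : ℝ) + 1) / Dm)

theorem KaC_nonneg {d Rz : ℕ} {nN mA Dm : ℝ} (hn : 0 ≤ nN) (hm : 0 < mA) (hD : 0 < Dm) :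
    0 ≤ KaC d Rz nN mA Dm := by
  unfold KaC
  positivity

/-- difference along a path, with the full energy -/
theorem path_all (a : Tor d L → ℝ) {x c : Tor d L} {R : ℕ} (hx : dT x c ≤ R) :
    (a x - a c) ^ 2 ≤ d * (2 * (R : ℝ) + 1) *
      ∑ i : Fin d, ∑ z, (a (z + Pi.single i 1) - a z) ^ 2 := by
  classical
  refine (path_sq a x c).trans ?_
  have h7 : (dT x c : ℝ) ≤ R := by exact_mod_cast hx
  refine mul_le_mul ?_ ?_ (sum_nonneg fun _ _ => sum_nonneg fun _ _ => sq_nonneg _)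
    (by positivity)
  · exact mul_le_mul_of_nonneg_left (by linarith) (by positivity)
  · exact sum_le_sum fun i _ => sum_le_sum_of_subset_of_nonneg (subset_univ _)
      fun _ _ _ => sq_nonneg _

theorem anchor {M : Med (Tor d L)} {N : Finset (Tor d L)} {c z0 : Tor d L} {R Rz : ℕ}
    {nN mA Dm : ℝ} {D : Fin d → Tor d L → ℝ} {dl : Tor d L → ℝ}
    (hm0 : ∀ x ∈ M.nr, 0 < mm M x) (hmA : 0 < mA) (hDm : 0 < Dm)
    (hl : ∀ u : Tor d L → ℝ, ∃ a : Tor d L → ℝ,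
      DW D a + ∑ x ∈ M.nr, M.eta x * (rsc (H0T d L) M.b x x).im * (u x - a x) ^ 2 /
        (1 + dl x) ≤ QF (H0T d L) M u)
    (hD : ∀ i x, Dm ≤ D i x) (hdl0 : ∀ x, 0 ≤ dl x) (hdl1 : ∀ x, dl x ≤ 1)
    (hN : N ⊆ M.nr) (hNn : (#N : ℝ) ≤ nN) (hNz : ∀ w ∈ N, dT w c ≤ Rz)
    (hmN : ∀ w ∈ N, mA ≤ mm M w)
    (hz : z0 ∈ M.nr) (hzR : R ≤ dT z0 c) (hzz : dT z0 c ≤ Rz) (hmz : mA ≤ mm M z0)
    (φ : Tor d L → ℝ) (hφ : ∀ x ∈ M.nr, R ≤ dT x c → φ x = 0) :
    ∑ w ∈ N, φ w ^ 2 ≤ KaC d Rz nN mA Dm * JF M.nr (kM M) φ := by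
  classical
  obtain ⟨a, ha⟩ := hl φ
  obtain ⟨Q, hQ⟩ : ∃ Q, Q = QF (H0T d L) M φ := ⟨_, rfl⟩
  rw [← QF_eq, ← hQ]
  rw [← hQ] at ha
  obtain ⟨E, hE⟩ : ∃ E, E = ∑ i : Fin d, ∑ z, (a (z + Pi.single i 1) - a z) ^ 2 := ⟨_, rfl⟩
  have hE0 : 0 ≤ E := by
    rw [hE]
    exact sum_nonneg fun _ _ => sum_nonneg fun _ _ => sq_nonneg _
  have hDW : Dm * E ≤ DW D a := by
    rw [hE]
    unfold DW
    rw [mul_sum]
    refine sum_le_sum fun i _ => ?_
    rw [mul_sum]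
    exact sum_le_sum fun x _ => mul_le_mul_of_nonneg_right (hD i x) (sq_nonneg _)
  have hDW0 : 0 ≤ Dm * E := mul_nonneg hDm.le hE0
  have ht0 : ∀ x ∈ M.nr, 0 ≤ M.eta x * (rsc (H0T d L) M.b x x).im * (φ x - a x) ^ 2 /
      (1 + dl x) := fun x hx => by
    have h1 := (hm0 x hx).le
    unfold mm at h1
    exact div_nonneg (mul_nonneg h1 (sq_nonneg _)) (by linarith [hdl0 x])
  have hS0 := sum_nonneg ht0
  have hQ0 : 0 ≤ Q := by linarith
  have hEQ : E ≤ Q / Dm := by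
    rw [le_div_iff₀ hDm]
    linarith
  -- one site
  have hsite : ∀ x ∈ M.nr, mA ≤ mm M x → (φ x - a x) ^ 2 ≤ 2 * Q / mA := by
    intro x hx hmx
    have h1 := single_le_sum ht0 hx
    have h2 : mA * (φ x - a x) ^ 2 / 2 ≤
        M.eta x * (rsc (H0T d L) M.b x x).im * (φ x - a x) ^ 2 / (1 + dl x) := by
      refine div_le_div₀ ?_ ?_ (by linarith [hdl0 x]) (by linarith [hdl1 x])
      · have h1 := (hm0 x hx).le
        unfold mm at h1
        exact mul_nonneg h1 (sq_nonneg _)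
      · exact mul_le_mul_of_nonneg_right hmx (sq_nonneg _)
    rw [le_div_iff₀ hmA]
    linarith
  have hz1 := hsite z0 hz hmz
  rw [hφ z0 hz hzR] at hz1
  have hz2 := path_all a hzz
  rw [← hE] at hz2
  have hone : ∀ w ∈ N, φ w ^ 2 ≤ 12 * (1 / mA + d * (2 * (Rz : ℝ) + 1) / Dm) * Q := by
    intro w hw
    have h1 := hsite w (hN hw) (hmN w hw)
    have h2 := path_all a (hNz w hw)
    rw [← hE] at h2
    have h3 : (a w - a z0) ^ 2 ≤ 4 * (d * (2 * (Rz : ℝ) + 1) * E) := by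
      nlinarith [sq_nonneg ((a w - a c) + (a z0 - a c))]
    have h4 : φ w ^ 2 ≤ 3 * (φ w - a w) ^ 2 + 3 * (a w - a z0) ^ 2 + 3 * (0 - a z0) ^ 2 := by
      nlinarith [sq_nonneg ((φ w - a w) - (a w - a z0)), sq_nonneg ((a w - a z0) + (0 - a z0)),
        sq_nonneg ((φ w - a w) + (0 - a z0))]
    have h5 : d * (2 * (Rz : ℝ) + 1) * E ≤ d * (2 * (Rz : ℝ) + 1) * (Q / Dm) :=
      mul_le_mul_of_nonneg_left hEQ (by positivity)
    have h6 : 12 * (1 / mA + d * (2 * (Rz : ℝ) + 1) / Dm) * Q =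
        6 * (2 * Q / mA) + 12 * (d * (2 * (Rz : ℝ) + 1) * (Q / Dm)) := by
      ring
    rw [h6]
    linarith
  have hn0 : (0 : ℝ) ≤ nN := (Nat.cast_nonneg _).trans hNn
  calc ∑ w ∈ N, φ w ^ 2 ≤ ∑ _w ∈ N, 12 * (1 / mA + d * (2 * (Rz : ℝ) + 1) / Dm) * Q :=
        sum_le_sum hone
    _ = #N * (12 * (1 / mA + d * (2 * (Rz : ℝ) + 1) / Dm) * Q) := by
        rw [sum_const, nsmul_eq_mul]
    _ ≤ nN * (12 * (1 / mA + d * (2 * (Rz : ℝ) + 1) / Dm) * Q) :=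
        mul_le_mul_of_nonneg_right hNn (by positivity)
    _ = _ := by
        unfold KaC
        ring

end Pool.Agent.ANF.Glob
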