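import Pool.Agent.ANF.Heat.WPoin

/-!
# ANF / Glob / Tail (helper60): the weight `rr μ s0 c x = exp(-μ (dT x c - s0)₊)` of a cell with centre `c` and radius `s0`,
tail inequality around the average over the ball of radius `R ≥ 2 s0`.
-/

open scoped BigOperators
open Finset

namespace Pool.Agent.ANF.Glob

open Pool.Agent.ANP Pool.Agent.ANM Pool.Agent.ANF.Heat

variable {d L : ℕ}

/-- weight of the cell: `1` on the cell, exponentially decaying outside -/
noncomputable def rr (μ : ℝ) (s0 : ℕ) (c x : Fin d → ZMod L) : ℝ :=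
  Real.exp (-(μ * ((dT x c - s0 : ℕ) : ℝ)))

theorem rr_pos (μ : ℝ) (s0 : ℕ) (c x : Fin d → ZMod L) : 0 < rr μ s0 c x := Real.exp_pos _

theorem rr_le_one {μ : ℝ} (h : 0 ≤ μ) (s0 : ℕ) (c x : Fin d → ZMod L) : rr μ s0 c x ≤ 1 := by
  unfold rr
  rw [Real.exp_le_one_iff]
  have : (0 : ℝ) ≤ ((dT x c - s0 : ℕ) : ℝ) := Nat.cast_nonneg _
  nlinarith [mul_nonneg h this]

/-- off the ball of radius `r ≥ s0` -/
theorem rr_far {μ : ℝ} (h : 0 ≤ μ) {s0 r : ℕ} {c x : Fin d → ZMod L} (hx : r < dT x c) :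
    rr μ s0 c x ≤ Real.exp (-(μ * ((r - s0 : ℕ) : ℝ))) := by
  unfold rr
  rw [Real.exp_le_exp, neg_le_neg_iff]
  refine mul_le_mul_of_nonneg_left ?_ h
  have : r - s0 ≤ dT x c - s0 := by omega
  exact_mod_cast this

/-- off the ball of radius `2 s0` half of the rate for the distance to the centre -/
theorem rr_half {μ : ℝ} (h : 0 ≤ μ) {s0 : ℕ} {c x : Fin d → ZMod L} (hx : 2 * s0 ≤ dT x c) :
    rr μ s0 c x ≤ Real.exp (-(μ / 2 * dT x c)) := by
  unfold rr
  rw [Real.exp_le_exp, neg_le_neg_iff]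
  have h1 : (dT x c : ℝ) / 2 ≤ ((dT x c - s0 : ℕ) : ℝ) := by
    rw [Nat.cast_sub (by omega)]
    have : 2 * (s0 : ℝ) ≤ dT x c := by exact_mod_cast hx
    linarith
  calc μ / 2 * (dT x c : ℝ) = μ * ((dT x c : ℝ) / 2) := by ring
    _ ≤ _ := mul_le_mul_of_nonneg_left h1 h

/-- weights of the edges in the tail inequality -/
noncomputable def tl [NeZero L] (μ : ℝ) (R : ℕ) (c z : Fin d → ZMod L) : ℝ :=
  (if dT z c ≤ R then (d : ℝ) / 2 * (2 * (R : ℝ) + 1) ^ 2 else 0) + tlw (μ / 2) R c z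

theorem tl_nonneg [NeZero L] {μ : ℝ} (h0 : 0 < μ) (R : ℕ) (c z : Fin d → ZMod L) :
    0 ≤ tl μ R c z := by
  unfold tl tlw
  have h1 := sumC_nonneg d 0 (half_pos h0)
  have h2 := sumC_nonneg d 0 (mu := μ / 2 / 4) (by positivity)
  refine add_nonneg ?_ (add_nonneg ?_ ?_)
  · split_ifs <;> positivity
  · have := Real.exp_pos (-(μ / 2 / 2 * (dT z c : ℝ)))
    positivity
  · split_ifs
    · positivity
    · exact le_rfl

/-- energy in a ball with an indicator -/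
theorem enT_ball_le [NeZero L] (c : Fin d → ZMod L) (R : ℕ) (a : (Fin d → ZMod L) → ℝ) :
    enT (ballF c R) a ≤ ∑ i : Fin d, ∑ z, (if dT z c ≤ R then (1 : ℝ) else 0) *
      (a (z + Pi.single i 1) - a z) ^ 2 := by
  classical
  unfold enT
  refine sum_le_sum fun i _ => ?_
  have : ∑ z, (if dT z c ≤ R then (1 : ℝ) else 0) * (a (z + Pi.single i 1) - a z) ^ 2 =
      ∑ z ∈ ballF c R, (a (z + Pi.single i 1) - a z) ^ 2 := by
    have e6 : ∑ z ∈ ballF c R, (a (z + Pi.single i 1) - a z) ^ 2 =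
        ∑ z, if z ∈ ballF c R then (a (z + Pi.single i 1) - a z) ^ 2 else 0 := by
      rw [← sum_filter, filter_mem_eq_inter, univ_inter]
    rw [e6]
    refine sum_congr rfl fun z _ => ?_
    by_cases hz : dT z c ≤ R
    · rw [if_pos hz, if_pos (mem_ballF.2 hz), one_mul]
    · rw [if_neg hz, if_neg (fun h => hz (mem_ballF.1 h)), zero_mul]
  rw [this]
  refine sum_le_sum fun z _ => ?_
  split_ifs
  · exact le_rfl
  · exact sq_nonneg _

/-- **tail inequality** -/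
theorem tail [NeZero L] (c : Fin d → ZMod L) {s0 R : ℕ} {μ : ℝ} (h0 : 0 < μ) (h1 : μ ≤ 1)
    (hsR : 2 * s0 ≤ R) (hR : 2 * R + 1 ≤ L) (a : (Fin d → ZMod L) → ℝ) :
    ∑ x, rr μ s0 c x * (a x - avT (ballF c R) a) ^ 2 ≤
      ∑ i : Fin d, ∑ z, tl μ R c z * (a (z + Pi.single i 1) - a z) ^ 2 := by
  classical
  have e1 := wpoin c R (half_pos h0) (by linarith) a
  have e2 := poin_ball c R hR a
  obtain ⟨m, hm⟩ : ∃ m, m = avT (ballF c R) a := ⟨_, rfl⟩
  rw [← hm] at e1 e2 ⊢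
  have e3 : ∑ x, rr μ s0 c x * (a x - m) ^ 2 ≤
      ∑ x ∈ ballF c R, (a x - m) ^ 2 + ∑ x, Real.exp (-(μ / 2 * dT x c)) * (a x - m) ^ 2 := by
    have e4 : ∑ x ∈ ballF c R, (a x - m) ^ 2 = ∑ x, if x ∈ ballF c R then (a x - m) ^ 2 else 0 := by
      rw [← sum_filter, filter_mem_eq_inter, univ_inter]
    rw [e4, ← sum_add_distrib]
    refine sum_le_sum fun x _ => ?_
    have hs := sq_nonneg (a x - m)
    by_cases hx : x ∈ ballF c R
    · rw [if_pos hx]
      have h3 := mul_le_mul_of_nonneg_right (rr_le_one h0.le s0 c x) hs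
      have h4 := mul_nonneg (Real.exp_pos (-(μ / 2 * dT x c))).le hs
      linarith
    · rw [if_neg hx, zero_add]
      rw [mem_ballF] at hx
      exact mul_le_mul_of_nonneg_right (rr_half h0.le (by omega)) hs
  have e5 := enT_ball_le c R a
  have e7 : ∑ i : Fin d, ∑ z, tl μ R c z * (a (z + Pi.single i 1) - a z) ^ 2 =
      (d : ℝ) / 2 * (2 * (R : ℝ) + 1) ^ 2 * ∑ i : Fin d, ∑ z, (if dT z c ≤ R then (1 : ℝ) else 0) *
        (a (z + Pi.single i 1) - a z) ^ 2 +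
      ∑ i : Fin d, ∑ z, tlw (μ / 2) R c z * (a (z + Pi.single i 1) - a z) ^ 2 := by
    rw [mul_sum, ← sum_add_distrib]
    refine sum_congr rfl fun i _ => ?_
    rw [mul_sum, ← sum_add_distrib]
    refine sum_congr rfl fun z _ => ?_
    unfold tl
    split_ifs <;> ring
  rw [e7]
  have e8 := mul_le_mul_of_nonneg_left e5
    (by positivity : (0 : ℝ) ≤ (d : ℝ) / 2 * (2 * (R : ℝ) + 1) ^ 2)
  linarith

/-- the sum of the weights -/
theorem sum_rr_le [NeZero L] (c : Fin d → ZMod L) {s0 : ℕ} {μ : ℝ} (h0 : 0 < μ) (h1 : μ ≤ 1) :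
    ∑ x, rr μ s0 c x ≤ (4 * (s0 : ℝ) + 1) ^ d + sumC d 0 (μ / 2) := by
  classical
  have hb : ∀ r, (univ.filter fun y : Fin d → ZMod L => dT c y ≤ r).card ≤ (2 * r + 1) ^ d :=
    fun r => card_ball c r
  have e1 : ∑ x, Real.exp (-(μ / 2 * dT x c)) ≤ sumC d 0 (μ / 2) := by
    have := sum_exp_le (X := Fin d → ZMod L) (fun x y => dT x y) (fun y => dT y c) c d 0 hb
      (fun y => by
        have := (nmet_dT (d := d) (L := L)).symm c y
        omega) (half_pos h0) (by linarith)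
    exact this
  have e3 : ∑ x, rr μ s0 c x ≤
      ∑ x, (if dT c x ≤ 2 * s0 then (1 : ℝ) else 0) + ∑ x, Real.exp (-(μ / 2 * dT x c)) := by
    rw [← sum_add_distrib]
    refine sum_le_sum fun x _ => ?_
    by_cases hx : dT c x ≤ 2 * s0
    · rw [if_pos hx]
      have h3 := rr_le_one h0.le s0 c x
      have h4 := (Real.exp_pos (-(μ / 2 * dT x c))).le
      linarith
    · rw [if_neg hx, zero_add]
      have := (nmet_dT (d := d) (L := L)).symm c x
      exact rr_half h0.le (by omega)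
  have e2 : ∑ x : Fin d → ZMod L, (if dT c x ≤ 2 * s0 then (1 : ℝ) else 0) ≤
      (4 * (s0 : ℝ) + 1) ^ d := by
    rw [sum_ite, sum_const_zero, add_zero, sum_const, nsmul_eq_mul, mul_one]
    have h3 := hb (2 * s0)
    calc ((univ.filter fun y : Fin d → ZMod L => dT c y ≤ 2 * s0).card : ℝ)
        ≤ (((2 * (2 * s0) + 1) ^ d : ℕ) : ℝ) := by exact_mod_cast h3
      _ = (4 * (s0 : ℝ) + 1) ^ d := by push_cast; ring
  linarith

end Pool.Agent.ANF.Glob
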