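import Pool.Agent.ANF.Glob.Comp
import Pool.Agent.ANF.Glob.Tail
import Pool.Agent.AND.Good
import Pool.Agent.ANM.FBase

/-!
# ANF / Glob / Main (helper60): (H4low), (H4up) after one step of the algorithm, on the torus

`StepIn M M' N mcl c s0 r R μ K ε Cm Ka`: `M` medium before, `M'` after; `N` = sites which are read, in the ball of radius `s0` around
`c`; `mcl` = classical value of `m = η ι` after the reading (`= m` off `N`); (I1) `low`, `up` = block bounds for functions supported in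
`dT x c < R`; (I2) `kd`, `kN`, `kN'` = decay of the kernels away from the cell, RELATIVE to the masses; `anc` = anchor inequality.
No constant contains the lower bound of the absorption at the inert sites.

`StepIn.h4l`, `StepIn.h4u`: the fields `h4l`, `h4u` of `AND.Good` for the tolerances `t'`, if `t'` absorbs the explicit local errors
* edges  : `2 e1 C0m Cc 1_(dT x c ≤ R) + 2 e2 tl μ R c x`  (`Cc = 2 + 9 d² R²/(R - r)²`),
* sites  : `4 e1 mcl_x 1_(dT x c ≤ R) + 2 e2 mcl_x rr μ s0 c x` (relative to the NEW `m`: also good at inert sites).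
-/

open scoped BigOperators
open Finset Matrix

noncomputable section

namespace Pool.Agent.ANF.Glob

open Pool.Agent.Kin Pool.Agent.APS Pool.Agent.AND Pool.Agent.ANP Pool.Agent.ANM Pool.Agent.ANF.Heat

variable {d L : ℕ} [NeZero L]

/-- kernel of the form of a medium -/
def kM (M : Med (Tor d L)) (x y : Tor d L) : ℝ :=
  M.eta x * ‖rsc (H0T d L) M.b x y‖ ^ 2 * M.eta y

/-- `m = η ι` -/
def mm (M : Med (Tor d L)) (x : Tor d L) : ℝ := M.eta x * (rsc (H0T d L) M.b x x).im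

theorem QF_eq (M : Med (Tor d L)) (u : Tor d L → ℝ) :
    QF (H0T d L) M u = JF M.nr (kM M) u := rfl

theorem ward_nr {M : Med (Tor d L)} (h : Diss (H0T d L) M.b) (hU : ∀ x ∈ M.U, M.eta x = 0)
    (x : Tor d L) : ∑ y ∈ M.nr, kM M x y = mm M x := by
  have h1 : ∑ y ∈ M.nr, kM M x y = ∑ y, kM M x y := by
    refine sum_subset (subset_univ _) fun y _ hy => ?_
    have : y ∈ M.U := by
      unfold Med.nr at hy
      simpa using hy
    unfold kM
    rw [hU y this, mul_zero]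
  rw [h1]
  unfold mm kM
  rw [h.ward x, mul_sum]
  refine sum_congr rfl fun y _ => ?_
  unfold Med.eta
  ring

theorem kM_nonneg {M : Med (Tor d L)} (h : Diss (H0T d L) M.b) (x y : Tor d L) : 0 ≤ kM M x y := by
  unfold kM Med.eta
  exact mul_nonneg (mul_nonneg (h.nn' x) (sq_nonneg _)) (h.nn' y)

theorem kM_symm {M : Med (Tor d L)} (h : Diss (H0T d L) M.b) (x y : Tor d L) :
    kM M x y = kM M y x := by
  unfold kM
  rw [h.symm x y]
  ring

/-- the data of one step -/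
structure StepIn (M M' : Med (Tor d L)) (N : Finset (Tor d L)) (mcl : Tor d L → ℝ) (c : Tor d L)
    (s0 r R : ℕ) (μ K ε Cm Ka : ℝ) : Prop where
  mu0 : 0 < μ
  mu1 : μ ≤ 1
  K0 : 0 ≤ K
  ep0 : 0 ≤ ε
  Cm1 : 1 ≤ Cm
  Ka0 : 0 ≤ Ka
  s0r : s0 ≤ r
  rR : r < R
  sR : 2 * s0 ≤ R
  RL : 2 * R + 1 ≤ L
  diss : Diss (H0T d L) M.b
  diss' : Diss (H0T d L) M'.b
  U : M'.U = M.U
  eU : ∀ x ∈ M.U, M.eta x = 0
  NX : N ⊆ M.nr
  NB : ∀ w ∈ N, dT w c ≤ s0
  m0 : ∀ x ∈ M.nr, 0 < mm M x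
  c0 : ∀ w ∈ N, 0 < mcl w
  cN : ∀ w ∈ N, mcl w < mm M w
  cX : ∀ x ∈ M.nr, x ∉ N → mcl x = mm M x
  cm : ∀ x ∈ M.nr, mcl x ≤ Cm
  /-- (I2) -/
  kd : ∀ x ∈ M.nr, x ∉ N → ∀ y ∈ M.nr, y ∉ N → |kM M' x y - kM M x y| ≤
    K * ((mcl x * rr μ s0 c x ^ 2) * (mcl y * rr μ s0 c y ^ 2))
  kN : ∀ w ∈ N, ∀ y ∈ M.nr, y ∉ N → kM M w y ≤ K * (mcl y * rr μ s0 c y ^ 2)
  kN' : ∀ w ∈ N, ∀ y ∈ M.nr, y ∉ N → |kM M' w y| ≤ K * (mcl w * (mcl y * rr μ s0 c y ^ 2))
  /-- anchor -/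
  anc : ∀ φ : Tor d L → ℝ, (∀ x ∈ M.nr, R ≤ dT x c → φ x = 0) →
    ∑ w ∈ N, φ w ^ 2 ≤ Ka * JF M.nr (kM M) φ
  /-- (I1) -/
  low : ∀ f : Tor d L → ℝ, (∀ x ∈ M.nr, R ≤ dT x c → f x = 0) →
    ∃ y : Tor d L → ℝ, (∀ x, x ∉ N → y x = 0) ∧
      JF M.nr (kM M) (fun x => f x - y x) + ∑ w ∈ N, y w ^ 2 / (1 / mcl w - 1 / mm M w) ≤
        (1 + ε) * JF M.nr (kM M') f
  up : ∀ f : Tor d L → ℝ, (∀ x ∈ M.nr, R ≤ dT x c → f x = 0) →
    ∀ y : Tor d L → ℝ, (∀ x, x ∉ N → y x = 0) →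
    JF M.nr (kM M') f ≤ (1 + ε) * (JF M.nr (kM M) (fun x => f x - y x) +
      ∑ w ∈ N, y w ^ 2 / (1 / mcl w - 1 / mm M w))

/-- the constant of the cut-off -/
def Cc (d r R : ℕ) : ℝ := 2 + 9 * d ^ 2 * (R : ℝ) ^ 2 / ((R : ℝ) - r) ^ 2

theorem Cc_nonneg (d r R : ℕ) : 0 ≤ Cc d r R := by
  unfold Cc
  positivity

variable {M M' : Med (Tor d L)} {N : Finset (Tor d L)} {mcl : Tor d L → ℝ} {c : Tor d L}
  {s0 r R : ℕ} {μ K ε Cm Ka : ℝ}

theorem StepIn.mc0 (h : StepIn M M' N mcl c s0 r R μ K ε Cm Ka) {x : Tor d L} (hx : x ∈ M.nr) :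
    0 < mcl x := by
  by_cases hxN : x ∈ N
  · exact h.c0 x hxN
  · rw [h.cX x hx hxN]
    exact h.m0 x hx

omit [NeZero L] in
theorem rr_one {w : Tor d L} (hw : dT w c ≤ s0) : rr μ s0 c w = 1 := by
  unfold rr
  rw [Nat.sub_eq_zero_of_le hw]
  simp

theorem StepIn.cell (h : StepIn M M' N mcl c s0 r R μ K ε Cm Ka) :
    Cell M.nr N (M.nr.filter fun x => dT x c ≤ r) (kM M) (kM M')
      (fun w => 1 / mcl w - 1 / mm M w) (cut c r R) (fun x => mcl x * rr μ s0 c x)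
      (K * Real.exp (-(μ * ((r - s0 : ℕ) : ℝ)))) ε Ka := by
  have hfar : ∀ y ∈ M.nr, y ∉ (M.nr.filter fun x => dT x c ≤ r) →
      y ∉ N ∧ rr μ s0 c y ^ 2 ≤ Real.exp (-(μ * ((r - s0 : ℕ) : ℝ))) * rr μ s0 c y := by
    intro y hy hy1
    have h1 : r < dT y c := by
      by_contra hc
      exact hy1 (mem_filter.2 ⟨hy, not_lt.1 hc⟩)
    refine ⟨fun hN => ?_, ?_⟩
    · have := h.NB y hN
      have := h.s0r
      omega
    · rw [pow_two]
      exact mul_le_mul_of_nonneg_right (rr_far h.mu0.le h1) (rr_pos μ s0 c y).le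
  have hK := h.K0
  refine
    { NX := h.NX
      NX1 := fun w hw => by
        rw [mem_filter]
        exact ⟨h.NX hw, (h.NB w hw).trans h.s0r⟩
      k0 := fun x _ y _ => kM_nonneg h.diss x y
      ks := fun x _ y _ => kM_symm h.diss x y
      ks' := fun x _ y _ => kM_symm h.diss' x y
      K0 := mul_nonneg hK (Real.exp_pos _).le
      e0 := h.ep0
      a0 := h.Ka0
      s0 := fun w hw => by
        have h1 := one_div_lt_one_div_of_lt (h.c0 w hw) (h.cN w hw)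
        linarith
      c0 := cut_nonneg c r R
      c1 := cut_le_one c r R
      cX := fun x hx => by
        rw [mem_filter] at hx
        exact cut_eq_one h.rR hx.2
      r0 := fun x hx => mul_nonneg (h.mc0 hx).le (rr_pos μ s0 c x).le
      kd := fun x hx hxN y hy hy1 => ?_
      kN := fun w hw y hy hy1 => ?_
      kN' := fun w hw y hy hy1 => ?_
      anc := fun φ hφ => h.anc φ fun x hx hxR => hφ x hx (cut_eq_zero h.rR hxR)
      low := fun f hf => h.low f fun x hx hxR => hf x hx (cut_eq_zero h.rR hxR)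
      up := fun f hf => h.up f fun x hx hxR => hf x hx (cut_eq_zero h.rR hxR) }
  · obtain ⟨hyN, hry⟩ := hfar y hy hy1
    refine (h.kd x hx hxN y hy hyN).trans ?_
    have hmx := (h.mc0 hx).le
    have hmy := (h.mc0 hy).le
    have hrx := (rr_pos μ s0 c x).le
    have hrx1 := rr_le_one h.mu0.le s0 c x
    have h1 : mcl x * rr μ s0 c x ^ 2 ≤ mcl x * rr μ s0 c x := by
      refine mul_le_mul_of_nonneg_left ?_ hmx
      nlinarith
    have h2 : mcl y * rr μ s0 c y ^ 2 ≤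
        Real.exp (-(μ * ((r - s0 : ℕ) : ℝ))) * (mcl y * rr μ s0 c y) := by
      have := mul_le_mul_of_nonneg_left hry hmy
      linarith
    have h3 : (mcl x * rr μ s0 c x ^ 2) * (mcl y * rr μ s0 c y ^ 2) ≤
        (mcl x * rr μ s0 c x) *
          (Real.exp (-(μ * ((r - s0 : ℕ) : ℝ))) * (mcl y * rr μ s0 c y)) :=
      mul_le_mul h1 h2 (by positivity) (by positivity)
    refine (mul_le_mul_of_nonneg_left h3 hK).trans (le_of_eq ?_)
    ring
  · obtain ⟨hyN, hry⟩ := hfar y hy hy1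
    refine (h.kN w hw y hy hyN).trans ?_
    have h2 := mul_le_mul_of_nonneg_left (mul_le_mul_of_nonneg_left hry (h.mc0 hy).le) hK
    refine h2.trans (le_of_eq ?_)
    ring
  · obtain ⟨hyN, hry⟩ := hfar y hy hy1
    refine (h.kN' w hw y hy hyN).trans ?_
    rw [rr_one (h.NB w hw), mul_one]
    have h2 := mul_le_mul_of_nonneg_left (mul_le_mul_of_nonneg_left
      (mul_le_mul_of_nonneg_left hry (h.mc0 hy).le) (h.c0 w hw).le) hK
    refine h2.trans (le_of_eq ?_)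
    ring

/-- the cut-off part of a function on the torus -/
theorem StepIn.cutE (h : StepIn M M' N mcl c s0 r R μ K ε Cm Ka) {C0 : Fin d → Tor d L → ℝ} {C0m : ℝ}
    (hu : ∀ a : Tor d L → ℝ, QF (H0T d L) M a ≤ DW C0 a) (hC : ∀ i x, C0 i x ≤ C0m)
    (hC0 : 0 ≤ C0m) (a : Tor d L → ℝ) :
    JF M.nr (kM M) (fun x => cut c r R x * (a x - avT (ballF c R) a)) ≤
      ∑ i : Fin d, ∑ x, (if dT x c ≤ R then C0m * Cc d r R else 0) *
        (a (x + Pi.single i 1) - a x) ^ 2 := by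
  classical
  have h1 := hu (fun x => cut c r R x * (a x - avT (ballF c R) a))
  rw [QF_eq] at h1
  have h2 : DW C0 (fun x => cut c r R x * (a x - avT (ballF c R) a)) ≤
      C0m * DT (fun x => cut c r R x * (a x - avT (ballF c R) a)) := by
    unfold DW DT
    rw [mul_sum]
    refine sum_le_sum fun i _ => ?_
    rw [mul_sum]
    exact sum_le_sum fun x _ => mul_le_mul_of_nonneg_right (hC i x) (sq_nonneg _)
  have h3 := cut_ball c h.rR h.RL a
  have h4 := enT_ball_le c R a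
  have h5 : C0m * DT (fun x => cut c r R x * (a x - avT (ballF c R) a)) ≤
      C0m * (Cc d r R * ∑ i : Fin d, ∑ x, (if dT x c ≤ R then (1 : ℝ) else 0) *
        (a (x + Pi.single i 1) - a x) ^ 2) :=
    mul_le_mul_of_nonneg_left
      (h3.trans (mul_le_mul_of_nonneg_left h4 (Cc_nonneg d r R))) hC0
  refine (h1.trans (h2.trans h5)).trans (le_of_eq ?_)
  rw [← mul_assoc, mul_sum]
  refine sum_congr rfl fun i _ => ?_
  rw [mul_sum]
  refine sum_congr rfl fun x _ => ?_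
  split_ifs <;> ring

theorem StepIn.tailE (h : StepIn M M' N mcl c s0 r R μ K ε Cm Ka) (a : Tor d L → ℝ) :
    ∑ x ∈ M.nr, rr μ s0 c x * (a x - avT (ballF c R) a) ^ 2 ≤
      ∑ i : Fin d, ∑ z, tl μ R c z * (a (z + Pi.single i 1) - a z) ^ 2 := by
  refine le_trans ?_ (tail c h.mu0 h.mu1 h.sR h.RL a)
  exact sum_le_sum_of_subset_of_nonneg (subset_univ _)
    fun x _ _ => mul_nonneg (rr_pos μ s0 c x).le (sq_nonneg _)

theorem StepIn.tailE' (h : StepIn M M' N mcl c s0 r R μ K ε Cm Ka) (a : Tor d L → ℝ) :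
    ∑ x ∈ M.nr, mcl x * rr μ s0 c x * (a x - avT (ballF c R) a) ^ 2 ≤
      Cm * ∑ i : Fin d, ∑ z, tl μ R c z * (a (z + Pi.single i 1) - a z) ^ 2 := by
  have hCm := h.Cm1
  refine le_trans ?_ (mul_le_mul_of_nonneg_left (h.tailE a) (by linarith : 0 ≤ Cm))
  rw [mul_sum]
  refine sum_le_sum fun x hx => ?_
  rw [mul_assoc]
  exact mul_le_mul_of_nonneg_right (h.cm x hx)
    (mul_nonneg (rr_pos μ s0 c x).le (sq_nonneg _))

/-- the sum of the weights -/
theorem StepIn.sumρ (h : StepIn M M' N mcl c s0 r R μ K ε Cm Ka) :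
    ∑ x ∈ M.nr, mcl x * rr μ s0 c x ≤ Cm * ∑ x ∈ M.nr, rr μ s0 c x := by
  rw [mul_sum]
  exact sum_le_sum fun x hx => mul_le_mul_of_nonneg_right (h.cm x hx) (rr_pos μ s0 c x).le

/-- **(H4low) after the step** -/
theorem StepIn.h4l (h : StepIn M M' N mcl c s0 r R μ K ε Cm Ka) {D D' C0 : Fin d → Tor d L → ℝ}
    {dl dl' : Tor d L → ℝ} {C0m e1 e2 S : ℝ} (hS : ∑ x ∈ M.nr, rr μ s0 c x ≤ S)
    (he1 : ε * (1 + ε) + K * Real.exp (-(μ * ((r - s0 : ℕ) : ℝ))) * (Cm * S) *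
      (Ka * (1 + ε) ^ 2) ≤ e1)
    (he2 : K * Real.exp (-(μ * ((r - s0 : ℕ) : ℝ))) * (Cm * (2 * (Cm * S) + 2 * #N)) ≤ e2)
    (hl : ∀ u : Tor d L → ℝ, ∃ a : Tor d L → ℝ,
      DW D a + ∑ x ∈ M.nr, M.eta x * (rsc (H0T d L) M.b x x).im * (u x - a x) ^ 2 /
        (1 + dl x) ≤ QF (H0T d L) M u)
    (hu : ∀ a : Tor d L → ℝ, QF (H0T d L) M a ≤ DW C0 a)
    (hC : ∀ i x, C0 i x ≤ C0m) (hC0 : 0 ≤ C0m) (hdl : ∀ x, 0 ≤ dl x)
    (hD : ∀ i x, D' i x + ((if dT x c ≤ R then 2 * e1 * (C0m * Cc d r R) else 0) +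
      2 * e2 * tl μ R c x) ≤ D i x)
    (hq : ∀ x ∈ M.nr, mm M' x / (1 + dl' x) +
      ((if dT x c ≤ R then 4 * e1 * mcl x else 0) + 2 * e2 * (mcl x * rr μ s0 c x)) ≤
        mcl x / (1 + mcl x / mm M x * dl x))
    (u : Tor d L → ℝ) : ∃ a : Tor d L → ℝ,
      DW D' a + ∑ x ∈ M'.nr, M'.eta x * (rsc (H0T d L) M'.b x x).im * (u x - a x) ^ 2 /
        (1 + dl' x) ≤ QF (H0T d L) M' u := by
  have hnr : M'.nr = M.nr := by
    unfold Med.nr
    rw [h.U]
  have hcell := h.cell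
  obtain ⟨E, hE⟩ : ∃ E, E = Real.exp (-(μ * ((r - s0 : ℕ) : ℝ))) := ⟨_, rfl⟩
  have hE0 : 0 ≤ E := by rw [hE]; exact (Real.exp_pos _).le
  rw [← hE] at he1 he2 hcell
  have hK := h.K0
  have hε := h.ep0
  have hKa := h.Ka0
  have hCm := h.Cm1
  have hρ0 : 0 ≤ ∑ x ∈ M.nr, mcl x * rr μ s0 c x :=
    sum_nonneg fun x hx => mul_nonneg (h.mc0 hx).le (rr_pos μ s0 c x).le
  have hρS : ∑ x ∈ M.nr, mcl x * rr μ s0 c x ≤ Cm * S :=
    h.sumρ.trans (mul_le_mul_of_nonneg_left hS (by linarith))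
  have hg1 : ε * (1 + ε) + K * E * (∑ x ∈ M.nr, mcl x * rr μ s0 c x) * (Ka * (1 + ε) ^ 2) ≤
      e1 := by
    refine le_trans ?_ he1
    have h1 := mul_le_mul_of_nonneg_left hρS (mul_nonneg hK hE0)
    have h2 := mul_le_mul_of_nonneg_right h1 (by positivity : 0 ≤ Ka * (1 + ε) ^ 2)
    linarith
  have he10 : 0 ≤ e1 := by
    refine le_trans ?_ hg1
    positivity
  have hg2 : K * E * (2 * (∑ x ∈ M.nr, mcl x * rr μ s0 c x) + 2 * #N) ≤ e2 / Cm := by
    rw [le_div_iff₀ (by linarith)]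
    refine le_trans ?_ he2
    have h1 : 2 * (∑ x ∈ M.nr, mcl x * rr μ s0 c x) + 2 * (#N : ℝ) ≤ 2 * (Cm * S) + 2 * #N := by
      linarith
    have h2 := mul_le_mul_of_nonneg_left h1 (mul_nonneg hK hE0)
    have h3 := mul_le_mul_of_nonneg_right h2 (by linarith : (0 : ℝ) ≤ Cm)
    refine h3.trans (le_of_eq ?_)
    ring
  have he20 : 0 ≤ e2 / Cm := by
    refine le_trans ?_ hg2
    positivity
  have he2' : e2 / Cm ≤ e2 := by
    rw [div_le_iff₀ (by linarith)]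
    have h3 : 0 ≤ e2 := by
      by_contra hc
      have := div_neg_of_neg_of_pos (not_le.1 hc) (by linarith : 0 < Cm)
      linarith
    nlinarith
  have hχ : ∀ x, cut c r R x ^ 2 ≤ if dT x c ≤ R then 1 else 0 := by
    intro x
    split_ifs with hx
    · exact pow_le_one₀ (cut_nonneg c r R x) (cut_le_one c r R x)
    · rw [cut_eq_zero h.rR (by omega)]
      norm_num
  have hq' : ∀ x ∈ M.nr, mm M' x / (1 + dl' x) +
      (4 * e1 * mcl x * cut c r R x ^ 2 + 2 * (e2 / Cm) * (mcl x * rr μ s0 c x)) ≤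
        mcl x / (1 + mcl x / mm M x * dl x) := by
    intro x hx
    refine le_trans ?_ (hq x hx)
    have h1 := mul_le_mul_of_nonneg_left (hχ x) (mul_nonneg (mul_nonneg (by norm_num : (0:ℝ) ≤ 4) he10)
      (h.mc0 hx).le)
    have h2 : 4 * e1 * mcl x * (if dT x c ≤ R then (1 : ℝ) else 0) =
        if dT x c ≤ R then 4 * e1 * mcl x else 0 := by
      split_ifs <;> ring
    rw [h2] at h1
    have h3 := mul_le_mul_of_nonneg_right he2'
      (mul_nonneg (h.mc0 hx).le (rr_pos μ s0 c x).le)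
    linarith
  have hmain := hcell.h4l (m := mm M) (m' := mcl) (dl := dl)
    (q' := fun x => mm M' x / (1 + dl' x))
    (e1 := e1) (e2 := e2 / Cm) (E := DW D) (E' := DW D')
    (Ec := fun a => ∑ i : Fin d, ∑ x, (if dT x c ≤ R then C0m * Cc d r R else 0) *
        (a (x + Pi.single i 1) - a x) ^ 2)
    (Et := fun a => Cm * ∑ i : Fin d, ∑ z, tl μ R c z * (a (z + Pi.single i 1) - a z) ^ 2)
    (cc := fun a => avT (ballF c R) a)
    hg1 hg2 h.m0 (fun x _ => hdl x) (fun x _ => (ward_nr h.diss h.eU x).le)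
    (fun w _ => by
      have h2 : 1 / mm M w + (1 / mcl w - 1 / mm M w) = 1 / mcl w := by ring
      rw [h2, one_div_one_div])
    h.cX
    (fun v => by
      obtain ⟨a, ha⟩ := hl v
      exact ⟨a, ha⟩)
    (fun a => h.cutE hu hC hC0 a) (fun a => h.tailE' a)
    (fun a => by
      have hCm0 : Cm ≠ 0 := by linarith
      have e3 : DW D' a + (2 * e1 * (∑ i : Fin d, ∑ x, (if dT x c ≤ R then C0m * Cc d r R else 0) *
          (a (x + Pi.single i 1) - a x) ^ 2) +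
          2 * (e2 / Cm) * (Cm * ∑ i : Fin d, ∑ z, tl μ R c z *
            (a (z + Pi.single i 1) - a z) ^ 2)) =
          ∑ i : Fin d, ∑ x, (D' i x + ((if dT x c ≤ R then 2 * e1 * (C0m * Cc d r R) else 0) +
            2 * e2 * tl μ R c x)) * (a (x + Pi.single i 1) - a x) ^ 2 := by
        have e4 : 2 * (e2 / Cm) * (Cm * ∑ i : Fin d, ∑ z, tl μ R c z *
            (a (z + Pi.single i 1) - a z) ^ 2) = 2 * e2 * ∑ i : Fin d, ∑ z, tl μ R c z *
            (a (z + Pi.single i 1) - a z) ^ 2 := by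
          field_simp
        rw [e4]
        unfold DW
        rw [mul_sum, mul_sum, ← sum_add_distrib, ← sum_add_distrib]
        refine sum_congr rfl fun i _ => ?_
        rw [mul_sum, mul_sum, ← sum_add_distrib, ← sum_add_distrib]
        refine sum_congr rfl fun x _ => ?_
        split_ifs <;> ring
      rw [e3]
      unfold DW
      exact sum_le_sum fun i _ => sum_le_sum fun x _ =>
        mul_le_mul_of_nonneg_right (hD i x) (sq_nonneg _))
    (fun x hx => by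
      have h1 := hq' x (h.NX hx)
      refine h1.trans (le_of_eq ?_)
      have h2 := (h.c0 x hx).ne'
      have h3 := (h.m0 x (h.NX hx)).ne'
      have h4 : (1 + dl x) / mm M x + (1 / mcl x - 1 / mm M x) = 1 / mcl x + dl x / mm M x := by
        field_simp
        ring
      have h5 : 0 < 1 / mcl x + dl x / mm M x :=
        add_pos_of_pos_of_nonneg (one_div_pos.2 (h.c0 x hx))
          (div_nonneg (hdl x) (h.m0 x (h.NX hx)).le)
      have h6 : 0 < 1 + mcl x / mm M x * dl x :=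
        add_pos_of_pos_of_nonneg one_pos
          (mul_nonneg (div_nonneg (h.c0 x hx).le (h.m0 x (h.NX hx)).le) (hdl x))
      rw [h4, div_eq_div_iff h6.ne' h5.ne']
      field_simp)
    (fun x hx hxN => by
      have h1 := hq' x hx
      have h2 := h.cX x hx hxN
      rw [h2, div_self (h.m0 x hx).ne', one_mul] at h1
      rw [h2]
      exact h1)
    u
  obtain ⟨a, ha⟩ := hmain
  refine ⟨a, ?_⟩
  rw [QF_eq, hnr]
  refine le_trans (le_of_eq ?_) ha
  congr 1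
  refine sum_congr rfl fun x _ => ?_
  unfold mm
  ring

/-- **(H4up) after the step** -/
theorem StepIn.h4u (h : StepIn M M' N mcl c s0 r R μ K ε Cm Ka) {C0 C0' : Fin d → Tor d L → ℝ}
    {C0m e2 S : ℝ} (hS : ∑ x ∈ M.nr, rr μ s0 c x ≤ S)
    (he2 : K * Real.exp (-(μ * ((r - s0 : ℕ) : ℝ))) * (Cm * (2 * (Cm * S) + 2 * #N) + Cm * S) ≤
      e2)
    (hu : ∀ a : Tor d L → ℝ, QF (H0T d L) M a ≤ DW C0 a)
    (hC : ∀ i x, C0 i x ≤ C0m) (hC0 : 0 ≤ C0m)
    (hD : ∀ i x, C0 i x + ((if dT x c ≤ R then ε * (C0m * Cc d r R) else 0) +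
      e2 * tl μ R c x) ≤ C0' i x)
    (a : Tor d L → ℝ) : QF (H0T d L) M' a ≤ DW C0' a := by
  have hnr : M'.nr = M.nr := by
    unfold Med.nr
    rw [h.U]
  have hcell := h.cell
  obtain ⟨E, hE⟩ : ∃ E, E = Real.exp (-(μ * ((r - s0 : ℕ) : ℝ))) := ⟨_, rfl⟩
  have hE0 : 0 ≤ E := by rw [hE]; exact (Real.exp_pos _).le
  rw [← hE] at he2 hcell
  have hK := h.K0
  have hCm := h.Cm1
  have hρ0 : 0 ≤ ∑ x ∈ M.nr, mcl x * rr μ s0 c x :=
    sum_nonneg fun x hx => mul_nonneg (h.mc0 hx).le (rr_pos μ s0 c x).le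
  have hρS : ∑ x ∈ M.nr, mcl x * rr μ s0 c x ≤ Cm * S :=
    h.sumρ.trans (mul_le_mul_of_nonneg_left hS (by linarith))
  obtain ⟨Q, hQ⟩ : ∃ Q, Q = ∑ x ∈ M.nr, mcl x * rr μ s0 c x := ⟨_, rfl⟩
  rw [← hQ] at hρ0 hρS
  have hS0 : 0 ≤ Cm * S := hρ0.trans hρS
  have hKE : 0 ≤ K * E := mul_nonneg hK hE0
  have he20 : 0 ≤ e2 := by
    refine le_trans ?_ he2
    have : 0 ≤ Cm * (2 * (Cm * S) + 2 * (#N : ℝ)) := by positivity
    positivity
  have hr : ∀ x ∈ M.nr, K * E * (2 * (∑ x ∈ M.nr, mcl x * rr μ s0 c x) + 2 * #N) *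
      (mcl x * rr μ s0 c x) +
      (if x ∈ N then K * E * (∑ x ∈ M.nr, mcl x * rr μ s0 c x) else 0) ≤ e2 * rr μ s0 c x := by
    intro x hx
    rw [← hQ]
    have hr0 := (rr_pos μ s0 c x).le
    have h1 : K * E * (2 * Q + 2 * #N) * (mcl x * rr μ s0 c x) ≤
        K * E * (Cm * (2 * (Cm * S) + 2 * #N)) * rr μ s0 c x := by
      have q1 : (2 * Q + 2 * (#N : ℝ)) * mcl x ≤ (2 * (Cm * S) + 2 * #N) * Cm :=
        mul_le_mul (by linarith) (h.cm x hx) (h.mc0 hx).le (by positivity)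
      have q2 := mul_le_mul_of_nonneg_left (mul_le_mul_of_nonneg_right q1 hr0) hKE
      refine le_trans (le_of_eq ?_) (q2.trans (le_of_eq ?_)) <;> ring
    have h2 : (if x ∈ N then K * E * Q else 0) ≤ K * E * (Cm * S) * rr μ s0 c x := by
      split_ifs with hxN
      · rw [rr_one (h.NB x hxN), mul_one]
        exact mul_le_mul_of_nonneg_left hρS hKE
      · positivity
    have h3 := mul_le_mul_of_nonneg_right he2 hr0
    refine le_trans (add_le_add h1 h2) (le_trans (le_of_eq ?_) h3)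
    ring
  have h1 := hcell.h4u (e2 := e2) he20 hr (fun a => h.cutE hu hC hC0 a) (fun a => h.tailE a) a
  rw [QF_eq, hnr]
  have h2 := hu a
  rw [QF_eq] at h2
  refine (h1.trans (add_le_add_left h2 _)).trans ?_
  have e3 : DW C0 a + (ε * (∑ i : Fin d, ∑ x, (if dT x c ≤ R then C0m * Cc d r R else 0) *
      (a (x + Pi.single i 1) - a x) ^ 2) +
      e2 * ∑ i : Fin d, ∑ z, tl μ R c z * (a (z + Pi.single i 1) - a z) ^ 2) =
      ∑ i : Fin d, ∑ x, (C0 i x + ((if dT x c ≤ R then ε * (C0m * Cc d r R) else 0) +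
        e2 * tl μ R c x)) * (a (x + Pi.single i 1) - a x) ^ 2 := by
    unfold DW
    rw [mul_sum, mul_sum, ← sum_add_distrib, ← sum_add_distrib]
    refine sum_congr rfl fun i _ => ?_
    rw [mul_sum, mul_sum, ← sum_add_distrib, ← sum_add_distrib]
    refine sum_congr rfl fun x _ => ?_
    split_ifs <;> ring
  rw [e3]
  unfold DW
  exact sum_le_sum fun i _ => sum_le_sum fun x _ =>
    mul_le_mul_of_nonneg_right (hD i x) (sq_nonneg _)

end Pool.Agent.ANF.Glob
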